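import Pool.Agent.Helper8.UL.Spec

/-! Base lemmas on runs. -/

open Set

namespace Pool.UL

theorem Run.append {L L' L'' : List (ℕ × ℕ)} {es es' : List Ev} (h : Run L es L')
    (h' : Run L' es' L'') : Run L (es ++ es') L'' := by
  induction h with
  | nil L => simpa using h'
  | swap P A B S h ih => exact Run.swap P A B S (ih h')
  | vert P I v O S h ih => exact Run.vert P I v O S (ih h')

theorem Run.context {L L' : List (ℕ × ℕ)} {es : List Ev} (h : Run L es L')
    (X Y : List (ℕ × ℕ)) : Run (X ++ L ++ Y) es (X ++ L' ++ Y) := by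
  induction h with
  | nil L => exact Run.nil _
  | swap P A B S h ih =>
    have := Run.swap (X ++ P) A B (S ++ Y) (es := _) (L' := _) (by simpa using ih)
    simpa using this
  | vert P I v O S h ih =>
    have := Run.vert (X ++ P) I v O (S ++ Y) (es := _) (L' := _) (by simpa using ih)
    simpa using this

theorem Run.swap1 (P A B S : List (ℕ × ℕ)) :
    Run (P ++ A ++ B ++ S) [Ev.swap A B] (P ++ B ++ A ++ S) :=
  Run.swap P A B S (Run.nil _)

theorem Run.vert1 (P I : List (ℕ × ℕ)) (v : ℕ) (O S : List (ℕ × ℕ)) :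
    Run (P ++ I ++ S) [Ev.vert v I O] (P ++ O ++ S) :=
  Run.vert P I v O S (Run.nil _)

/-- change of the form of the rows -/
theorem Run.cast {L L' M M' : List (ℕ × ℕ)} {es : List Ev} (h : Run L es L') (h1 : M = L)
    (h2 : M' = L') : Run M es M' := by
  subst h1; subst h2; exact h

@[simp] theorem cr_nil (e : ℕ × ℕ) : cr e [] = 0 := rfl

@[simp] theorem cr_append (e : ℕ × ℕ) (es es' : List Ev) : cr e (es ++ es') = cr e es + cr e es' := by
  simp [cr]

@[simp] theorem cr_cons (e : ℕ × ℕ) (ev : Ev) (es : List Ev) :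
    cr e (ev :: es) = crE e ev + cr e es := by
  simp [cr]

@[simp] theorem vs_nil : vs [] = [] := rfl

@[simp] theorem vs_append (es es' : List Ev) : vs (es ++ es') = vs es ++ vs es' := by
  simp [vs]

@[simp] theorem vs_cons_swap (A B : List (ℕ × ℕ)) (es : List Ev) :
    vs (Ev.swap A B :: es) = vs es := by
  simp [vs, vE]

@[simp] theorem vs_cons_vert (v : ℕ) (I O : List (ℕ × ℕ)) (es : List Ev) :
    vs (Ev.vert v I O :: es) = v :: vs es := by
  simp [vs, vE]

@[simp] theorem crE_vert (e : ℕ × ℕ) (v : ℕ) (I O : List (ℕ × ℕ)) : crE e (Ev.vert v I O) = 0 := rfl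

theorem crE_swap (e : ℕ × ℕ) (A B : List (ℕ × ℕ)) :
    crE e (Ev.swap A B) = A.count e * B.length + B.count e * A.length := rfl

/-- optional edge -/
noncomputable def opt (E : ℕ → ℕ → Prop) (a b : ℕ) : List (ℕ × ℕ) :=
  open Classical in if E a b then [(a, b)] else []

theorem enum_opt (E : ℕ → ℕ → Prop) (a b : ℕ) :
    Enum (opt E a b) {e | e.1 = a ∧ e.2 = b ∧ E e.1 e.2} := by
  classical
  unfold opt
  constructor
  · split_ifs <;> simp
  · intro e
    split_ifs with h
    · simp only [List.mem_singleton, mem_ofPred_eq]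
      constructor
      · rintro rfl; exact ⟨rfl, rfl, h⟩
      · rintro ⟨h1, h2, -⟩; exact Prod.ext h1 h2
    · simp only [List.not_mem_nil, mem_ofPred_eq, false_iff]
      rintro ⟨h1, h2, h3⟩
      rw [h1, h2] at h3
      exact h h3

theorem Enum.append {L M : List (ℕ × ℕ)} {S T : Set (ℕ × ℕ)} (h : Enum L S) (h' : Enum M T)
    (hd : ∀ e, e ∈ S → e ∉ T) : Enum (L ++ M) (S ∪ T) := by
  refine ⟨List.nodup_append.2 ⟨h.1, h'.1, ?_⟩, ?_⟩
  · intro a ha b hb hab
    subst hab
    exact hd a ((h.2 a).1 ha) ((h'.2 a).1 hb)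
  · intro e
    rw [List.mem_append, h.2, h'.2]
    rfl

theorem Enum.congr {L : List (ℕ × ℕ)} {S T : Set (ℕ × ℕ)} (h : Enum L S)
    (hST : ∀ e, e ∈ S ↔ e ∈ T) : Enum L T :=
  ⟨h.1, fun e => (h.2 e).trans (hST e)⟩

/-- count in a duplicate free list -/
theorem count_le_ite {L : List (ℕ × ℕ)} (h : L.Nodup) (e : ℕ × ℕ) :
    L.count e ≤ (open Classical in if e ∈ L then 1 else 0) := by
  classical
  split_ifs with he
  · exact List.nodup_iff_count_le_one.1 h e
  · rw [List.count_eq_zero_of_not_mem he]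

/-- two disjoint lists of edges at `v` have total length at most `Δ` -/
theorem DegLe.two {E : ℕ → ℕ → Prop} {Δ : ℕ} (hΔ : DegLe E Δ) (v : ℕ) {L M : List (ℕ × ℕ)}
    {S T : Set (ℕ × ℕ)} (h : Enum L S) (h' : Enum M T) (hd : ∀ e, e ∈ S → e ∉ T)
    (hS : ∀ e ∈ S, (e.1 = v ∨ e.2 = v) ∧ E e.1 e.2)
    (hT : ∀ e ∈ T, (e.1 = v ∨ e.2 = v) ∧ E e.1 e.2) : L.length + M.length ≤ Δ := by
  have := hΔ v (L ++ M) (h.append h' hd).1 (fun e he => by
    rcases List.mem_append.1 he with he | he
    · exact hS e ((h.2 e).1 he)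
    · exact hT e ((h'.2 e).1 he))
  simpa using this

theorem DegLe.one {E : ℕ → ℕ → Prop} {Δ : ℕ} (hΔ : DegLe E Δ) (v : ℕ) {L : List (ℕ × ℕ)}
    {S : Set (ℕ × ℕ)} (h : Enum L S)
    (hS : ∀ e ∈ S, (e.1 = v ∨ e.2 = v) ∧ E e.1 e.2) : L.length ≤ Δ :=
  hΔ v L h.1 (fun e he => hS e ((h.2 e).1 he))

theorem ind3_x (x y w : ℕ) : ind3 x y w x = 1 := by simp [ind3]
theorem ind3_y (x y w : ℕ) : ind3 x y w y = 1 := by simp [ind3]
theorem ind3_w (x y w : ℕ) : ind3 x y w w = 1 := by simp [ind3]

/-- the swaps `swap A B`, `swap B C` of pairwise disjoint lists cost at most `Δ` on every edge -/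
theorem swap2_le {A B C : List (ℕ × ℕ)} {Δ : ℕ} (hA : A.Nodup) (hB : B.Nodup) (hC : C.Nodup)
    (hAB : ∀ e ∈ A, e ∉ B) (hAC : ∀ e ∈ A, e ∉ C) (hBC : ∀ e ∈ B, e ∉ C)
    (h1 : A.length + C.length ≤ Δ) (h2 : B.length ≤ Δ) (e : ℕ × ℕ) (t : ℕ)
    (ht : e ∈ A ∨ e ∈ B ∨ e ∈ C → 1 ≤ t) :
    (A.count e * B.length + B.count e * A.length) +
      (B.count e * C.length + C.count e * B.length) ≤ Δ * t := by
  by_cases hm : e ∈ A ∨ e ∈ B ∨ e ∈ C
  · have ht1 := ht hm
    have key : (A.count e * B.length + B.count e * A.length) +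
        (B.count e * C.length + C.count e * B.length) ≤ Δ := by
      rcases hm with hm | hm | hm
      · have a1 := List.nodup_iff_count_le_one.1 hA e
        have b0 := List.count_eq_zero_of_not_mem (hAB e hm)
        have c0 := List.count_eq_zero_of_not_mem (hAC e hm)
        rw [b0, c0]
        have : A.count e * B.length ≤ 1 * B.length := Nat.mul_le_mul_right _ a1
        omega
      · have a0 := List.count_eq_zero_of_not_mem (fun h => hAB e h hm)
        have b1 := List.nodup_iff_count_le_one.1 hB e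
        have c0 := List.count_eq_zero_of_not_mem (hBC e hm)
        rw [a0, c0]
        have h3 : B.count e * A.length ≤ 1 * A.length := Nat.mul_le_mul_right _ b1
        have h4 : B.count e * C.length ≤ 1 * C.length := Nat.mul_le_mul_right _ b1
        omega
      · have a0 := List.count_eq_zero_of_not_mem (fun h => hAC e h hm)
        have b0 := List.count_eq_zero_of_not_mem (fun h => hBC e h hm)
        have c1 := List.nodup_iff_count_le_one.1 hC e
        rw [a0, b0]
        have : C.count e * B.length ≤ 1 * B.length := Nat.mul_le_mul_right _ c1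
        omega
    calc _ ≤ Δ := key
      _ ≤ Δ * t := Nat.le_mul_of_pos_right _ ht1
  · push Not at hm
    rw [List.count_eq_zero_of_not_mem hm.1, List.count_eq_zero_of_not_mem hm.2.1,
      List.count_eq_zero_of_not_mem hm.2.2]
    simp

end Pool.UL
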