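import Pool.Agent.Helper8.UL.Spec2

/-! Base lemmas for the parts of UL2: edge lists `Inn`, `Out`, event lists `Fine`, costs. -/

open Set

namespace Pool.UL

/-! ### Edge lists -/

theorem Inn.nodup {E : ℕ → ℕ → Prop} {H : Set ℕ} {v : ℕ} {L : List (ℕ × ℕ)} (h : Inn E H v L) :
    L.Nodup := h.1

theorem Out.nodup {E : ℕ → ℕ → Prop} {H : Set ℕ} {v : ℕ} {L : List (ℕ × ℕ)} (h : Out E v H L) :
    L.Nodup := h.1

theorem Inn.mem {E : ℕ → ℕ → Prop} {H : Set ℕ} {v : ℕ} {L : List (ℕ × ℕ)} (h : Inn E H v L)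
    {x : ℕ × ℕ} : x ∈ L ↔ x.1 ∈ H ∧ x.2 = v ∧ E x.1 x.2 := h.2 x

theorem Out.mem {E : ℕ → ℕ → Prop} {H : Set ℕ} {v : ℕ} {L : List (ℕ × ℕ)} (h : Out E v H L)
    {x : ℕ × ℕ} : x ∈ L ↔ x.1 = v ∧ x.2 ∈ H ∧ E x.1 x.2 := h.2 x

/-- change of the set -/
theorem Inn.congr {E : ℕ → ℕ → Prop} {H H' : Set ℕ} {v : ℕ} {L : List (ℕ × ℕ)} (h : Inn E H v L)
    (hH : ∀ u, E u v → (u ∈ H ↔ u ∈ H')) : Inn E H' v L := by
  refine ⟨h.1, fun x => ?_⟩
  rw [h.mem, mem_ofPred_eq]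
  constructor
  · rintro ⟨h1, h2, h3⟩
    subst h2
    exact ⟨(hH _ h3).1 h1, rfl, h3⟩
  · rintro ⟨h1, h2, h3⟩
    subst h2
    exact ⟨(hH _ h3).2 h1, rfl, h3⟩

theorem Out.congr {E : ℕ → ℕ → Prop} {H H' : Set ℕ} {v : ℕ} {L : List (ℕ × ℕ)} (h : Out E v H L)
    (hH : ∀ u, E v u → (u ∈ H ↔ u ∈ H')) : Out E v H' L := by
  refine ⟨h.1, fun x => ?_⟩
  rw [h.mem, mem_ofPred_eq]
  constructor
  · rintro ⟨h1, h2, h3⟩
    subst h1
    exact ⟨rfl, (hH _ h3).1 h2, h3⟩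
  · rintro ⟨h1, h2, h3⟩
    subst h1
    exact ⟨rfl, (hH _ h3).2 h2, h3⟩

theorem Inn.append {E : ℕ → ℕ → Prop} {H H' : Set ℕ} {v : ℕ} {L L' : List (ℕ × ℕ)}
    (h : Inn E H v L) (h' : Inn E H' v L') (hd : ∀ u ∈ H, u ∉ H') :
    Inn E {u | u ∈ H ∨ u ∈ H'} v (L ++ L') := by
  refine ⟨List.nodup_append.2 ⟨h.1, h'.1, ?_⟩, fun x => ?_⟩
  · intro a ha b hb hab
    subst hab
    exact hd _ (h.mem.1 ha).1 (h'.mem.1 hb).1
  · rw [List.mem_append, h.mem, h'.mem, mem_ofPred_eq, mem_ofPred_eq]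
    tauto

theorem Out.append {E : ℕ → ℕ → Prop} {H H' : Set ℕ} {v : ℕ} {L L' : List (ℕ × ℕ)}
    (h : Out E v H L) (h' : Out E v H' L') (hd : ∀ u ∈ H, u ∉ H') :
    Out E v {u | u ∈ H ∨ u ∈ H'} (L ++ L') := by
  refine ⟨List.nodup_append.2 ⟨h.1, h'.1, ?_⟩, fun x => ?_⟩
  · intro a ha b hb hab
    subst hab
    exact hd _ (h.mem.1 ha).2.1 (h'.mem.1 hb).2.1
  · rw [List.mem_append, h.mem, h'.mem, mem_ofPred_eq, mem_ofPred_eq]
    tauto

/-- the optional edge `a b` as a list of edges from `{a}` to `b` -/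
theorem inn_opt (E : ℕ → ℕ → Prop) (a b : ℕ) : Inn E {u | u = a} b (opt E a b) := by
  have h := enum_opt E a b
  exact ⟨h.1, fun x => (h.2 x).trans (by simp only [mem_ofPred_eq])⟩

theorem out_opt (E : ℕ → ℕ → Prop) (a b : ℕ) : Out E a {u | u = b} (opt E a b) := by
  have h := enum_opt E a b
  exact ⟨h.1, fun x => (h.2 x).trans (by simp only [mem_ofPred_eq])⟩

/-- a permutation -/
theorem Inn.perm {E : ℕ → ℕ → Prop} {H : Set ℕ} {v : ℕ} {L L' : List (ℕ × ℕ)} (h : Inn E H v L)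
    (hp : L.Perm L') : Inn E H v L' :=
  ⟨hp.nodup_iff.1 h.1, fun x => hp.mem_iff.symm.trans (h.2 x)⟩

theorem Out.perm {E : ℕ → ℕ → Prop} {H : Set ℕ} {v : ℕ} {L L' : List (ℕ × ℕ)} (h : Out E v H L)
    (hp : L.Perm L') : Out E v H L' :=
  ⟨hp.nodup_iff.1 h.1, fun x => hp.mem_iff.symm.trans (h.2 x)⟩

/-- a vertex event is correct if its lists are the edges to and from `v`; `H`, `H'` must contain all
in-neighbours resp. out-neighbours -/
theorem oke_vert {E : ℕ → ℕ → Prop} {H H' : Set ℕ} {v : ℕ} {I O : List (ℕ × ℕ)} (hI : Inn E H v I)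
    (hO : Out E v H' O) (h : ∀ u, E u v → u ∈ H) (h' : ∀ u, E v u → u ∈ H') :
    OKE E (Ev.vert v I O) := by
  refine ⟨⟨hI.1, fun x => ?_⟩, ⟨hO.1, fun x => ?_⟩⟩
  · rw [hI.mem, mem_ofPred_eq]
    constructor
    · rintro ⟨h1, h2, h3⟩
      subst h2
      exact ⟨rfl, h3⟩
    · rintro ⟨h2, h3⟩
      subst h2
      exact ⟨h _ h3, rfl, h3⟩
  · rw [hO.mem, mem_ofPred_eq]
    constructor
    · rintro ⟨h1, h2, h3⟩
      subst h1
      exact ⟨rfl, h3⟩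
    · rintro ⟨h2, h3⟩
      subst h2
      exact ⟨rfl, h' _ h3, h3⟩

theorem Inn.length_le {E : ℕ → ℕ → Prop} {Δ : ℕ} (hΔ : DegLe E Δ) {H : Set ℕ} {v : ℕ}
    {L : List (ℕ × ℕ)} (h : Inn E H v L) : L.length ≤ Δ :=
  hΔ v L h.1 (fun _ he => ⟨Or.inr (h.mem.1 he).2.1, (h.mem.1 he).2.2⟩)

theorem Out.length_le {E : ℕ → ℕ → Prop} {Δ : ℕ} (hΔ : DegLe E Δ) {H : Set ℕ} {v : ℕ}
    {L : List (ℕ × ℕ)} (h : Out E v H L) : L.length ≤ Δ :=
  hΔ v L h.1 (fun _ he => ⟨Or.inl (h.mem.1 he).1, (h.mem.1 he).2.2⟩)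

/-- counts in the lists are at most the indicator -/
theorem Inn.count_le {E : ℕ → ℕ → Prop} {H : Set ℕ} {v : ℕ} {L : List (ℕ × ℕ)} (h : Inn E H v L)
    {p q w : ℕ} (hv : v = p ∨ v = q ∨ v = w) (x : ℕ × ℕ) :
    L.count x ≤ ind3 p q w x.1 + ind3 p q w x.2 := by
  by_cases hx : x ∈ L
  · have h1 : ind3 p q w x.2 = 1 := by
      unfold ind3
      rw [(h.mem.1 hx).2.1, if_pos hv]
    have := List.nodup_iff_count_le_one.1 h.1 x
    omega
  · rw [List.count_eq_zero_of_not_mem hx]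
    omega

theorem Out.count_le {E : ℕ → ℕ → Prop} {H : Set ℕ} {v : ℕ} {L : List (ℕ × ℕ)} (h : Out E v H L)
    {p q w : ℕ} (hv : v = p ∨ v = q ∨ v = w) (x : ℕ × ℕ) :
    L.count x ≤ ind3 p q w x.1 + ind3 p q w x.2 := by
  by_cases hx : x ∈ L
  · have h1 : ind3 p q w x.1 = 1 := by
      unfold ind3
      rw [(h.mem.1 hx).1, if_pos hv]
    have := List.nodup_iff_count_le_one.1 h.1 x
    omega
  · rw [List.count_eq_zero_of_not_mem hx]
    omega

/-- cost of a swap -/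
theorem cost_swap {A B : List (ℕ × ℕ)} {m n : ℕ} (hA : A.length ≤ m) (hB : B.length ≤ n)
    (x : ℕ × ℕ) : cr x [Ev.swap A B] ≤ n * A.count x + m * B.count x := by
  simp only [cr_cons, cr_nil, crE_swap, add_zero]
  have h1 : A.count x * B.length ≤ A.count x * n := Nat.mul_le_mul_left _ hB
  have h2 : B.count x * A.length ≤ B.count x * m := Nat.mul_le_mul_left _ hA
  rw [Nat.mul_comm n, Nat.mul_comm m]
  omega

/-! ### Event lists -/

theorem cr_perm {es es' : List Ev} (h : es.Perm es') (x : ℕ × ℕ) : cr x es = cr x es' := by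
  unfold cr
  exact (h.map _).sum_eq

theorem vs_perm {es es' : List Ev} (h : es.Perm es') : (vs es).Perm (vs es') := by
  unfold vs
  exact h.flatMap_right _

theorem Fine.perm {E : ℕ → ℕ → Prop} {H : Set ℕ} {es es' : List Ev} (h : Fine E H es)
    (hp : es.Perm es') : Fine E H es' :=
  ⟨fun ev hev => h.1 ev (hp.mem_iff.2 hev), (vs_perm hp).nodup_iff.1 h.2.1,
    fun v => (vs_perm hp).mem_iff.symm.trans (h.2.2 v)⟩

theorem Fine.congr {E : ℕ → ℕ → Prop} {H H' : Set ℕ} {es : List Ev} (h : Fine E H es)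
    (hH : ∀ v, v ∈ H ↔ v ∈ H') : Fine E H' es :=
  ⟨h.1, h.2.1, fun v => (h.2.2 v).trans (hH v)⟩

theorem Fine.append {E : ℕ → ℕ → Prop} {H H' : Set ℕ} {es es' : List Ev} (h : Fine E H es)
    (h' : Fine E H' es') (hd : ∀ v ∈ H, v ∉ H') : Fine E {v | v ∈ H ∨ v ∈ H'} (es ++ es') := by
  refine ⟨fun ev hev => ?_, ?_, fun v => ?_⟩
  · rcases List.mem_append.1 hev with h1 | h1
    · exact h.1 ev h1
    · exact h'.1 ev h1
  · rw [vs_append]
    refine List.nodup_append.2 ⟨h.2.1, h'.2.1, ?_⟩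
    intro a ha b hb hab
    subst hab
    exact hd _ ((h.2.2 _).1 ha) ((h'.2.2 _).1 hb)
  · rw [vs_append, List.mem_append, h.2.2, h'.2.2, mem_ofPred_eq]

theorem Fine.swap {E : ℕ → ℕ → Prop} {H : Set ℕ} {es : List Ev} (h : Fine E H es)
    (A B : List (ℕ × ℕ)) : Fine E H (es ++ [Ev.swap A B]) := by
  refine ⟨fun ev hev => ?_, ?_, fun v => ?_⟩
  · rcases List.mem_append.1 hev with h1 | h1
    · exact h.1 ev h1
    · rw [List.mem_singleton.1 h1]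
      trivial
  · simpa using h.2.1
  · simpa using h.2.2 v

theorem Fine.vert {E : ℕ → ℕ → Prop} {H : Set ℕ} {es : List Ev} (h : Fine E H es) {w : ℕ}
    {I O : List (ℕ × ℕ)} (hw : w ∉ H) (hok : OKE E (Ev.vert w I O)) :
    Fine E {v | v ∈ H ∨ v = w} (es ++ [Ev.vert w I O]) := by
  refine ⟨fun ev hev => ?_, ?_, fun v => ?_⟩
  · rcases List.mem_append.1 hev with h1 | h1
    · exact h.1 ev h1
    · rw [List.mem_singleton.1 h1]
      exact hok
  · rw [vs_append]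
    refine List.nodup_append.2 ⟨h.2.1, by simp, ?_⟩
    intro a ha b hb hab
    subst hab
    simp only [vs_cons_vert, vs_nil, List.mem_singleton] at hb
    subst hb
    exact hw ((h.2.2 _).1 ha)
  · rw [vs_append, List.mem_append, h.2.2, mem_ofPred_eq]
    simp

theorem Fine.nil (E : ℕ → ℕ → Prop) : Fine E {v | False} [] :=
  ⟨by simp, by simp, by simp⟩

/-- a single step that inserts a run `[] → L` -/
theorem Run.insert {L : List (ℕ × ℕ)} {es : List Ev} (h : Run [] es L) (X Y : List (ℕ × ℕ)) :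
    Run (X ++ Y) es (X ++ L ++ Y) :=
  (h.context X Y).cast (by simp) rfl

/-- a single step that removes a row `L → []` -/
theorem Run.remove {L : List (ℕ × ℕ)} {es : List Ev} (h : Run L es []) (X Y : List (ℕ × ℕ)) :
    Run (X ++ L ++ Y) es (X ++ Y) :=
  (h.context X Y).cast rfl (by simp)

end Pool.UL
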