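import Pool.Agent.Helper8.UL.Base

/-! Part COMBM. -/

open Set

namespace Pool.UL

theorem Cfg.no2x {E : ℕ → ℕ → Prop} {x y w : ℕ} {H₁ H₂ : Set ℕ} (hc : Cfg E x y w H₁ H₂) {p : ℕ}
    (hp : p ∈ H₂) : ¬ (E p x ∨ E x p) := by
  intro h
  rcases hc.n2 p hp x h with h | h | h
  · exact hc.x2 h
  · exact hc.xw h
  · exact hc.xy h

theorem Cfg.no1y {E : ℕ → ℕ → Prop} {x y w : ℕ} {H₁ H₂ : Set ℕ} (hc : Cfg E x y w H₁ H₂) {p : ℕ}
    (hp : p ∈ H₁) : ¬ (E p y ∨ E y p) := by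
  intro h
  rcases hc.n1 p hp y h with h | h | h
  · exact hc.y1 h
  · exact hc.xy h.symm
  · exact hc.yw h

/-- the union of the events of the two parts and new events: vertices -/
theorem vs_comb {H₁ H₂ : Set ℕ} {w : ℕ} {u1 u2 u : List ℕ} (nd1 : u1.Nodup) (nd2 : u2.Nodup)
    (m1 : ∀ v, v ∈ u1 ↔ v ∈ H₁) (m2 : ∀ v, v ∈ u2 ↔ v ∈ H₂) (w1 : w ∉ H₁) (w2 : w ∉ H₂)
    (disj : ∀ v ∈ H₁, v ∉ H₂) (hp : u.Perm (u1 ++ w :: u2)) :
    u.Nodup ∧ ∀ v, v ∈ u ↔ v ∈ H₁ ∪ {w} ∪ H₂ := by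
  constructor
  · rw [hp.nodup_iff, List.nodup_append, List.nodup_cons]
    refine ⟨nd1, ⟨fun h => w2 ((m2 w).1 h), nd2⟩, ?_⟩
    intro a ha b hb hab
    subst hab
    rcases List.mem_cons.1 hb with h | h
    · rw [h] at ha
      exact w1 ((m1 w).1 ha)
    · exact disj a ((m1 a).1 ha) ((m2 a).1 h)
  · intro v
    rw [hp.mem_iff, List.mem_append, List.mem_cons, m1, m2]
    simp only [mem_union, mem_singleton_iff]
    tauto

theorem combM_thm : S_COMBM := by
  intro E Δ x y w H₁ H₂ T₁ T₂ hΔ hc hwx hyw h1 h2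
  obtain ⟨W1x, I1x, O1x, W1w, I1w, O1w, a1, a2, a3, r1, r2, r3, e1, e2, e3, e4, ok1, nd1, m1, c1⟩ :=
    h1
  obtain ⟨W2w, I2w, O2w, W2y, I2y, O2y, b1, b2, b3, s1, s2, s3, f1, f2, f3, f4, ok2, nd2, m2, c2⟩ :=
    h2
  refine ⟨W2w ++ W1x ++ I2w, I1x, O1x ++ opt E x w, W2y, I2y ++ opt E w y, O2y,
    b1 ++ a1 ++ [Ev.swap I1x I2w],
    [Ev.swap I2w O1x] ++ a2 ++ [Ev.vert w (I1w ++ I2w ++ opt E x w) (O1w ++ O2w ++ opt E w y)] ++
      a3 ++ b2, b3, ?_, ?_, s3, ?_, ?_, ?_, ?_, ?_, ?_, ?_, ?_⟩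
  · have g1 : Run (W2w ++ I2w) a1 (W2w ++ W1x ++ I1x ++ I2w) :=
      (r1.context W2w I2w).cast (by simp) (by simp)
    have g2 : Run (W2w ++ W1x ++ I1x ++ I2w) [Ev.swap I1x I2w] (W2w ++ W1x ++ I2w ++ I1x) :=
      (Run.swap1 (W2w ++ W1x) I1x I2w []).cast (by simp) (by simp)
    exact (s1.append g1).append g2
  · have g1 : Run (W2w ++ W1x ++ I2w ++ (O1x ++ opt E x w)) [Ev.swap I2w O1x]
        (W2w ++ (W1x ++ O1x) ++ (I2w ++ opt E x w)) :=
      (Run.swap1 (W2w ++ W1x) I2w O1x (opt E x w)).cast (by simp) (by simp)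
    have g2 := r2.context W2w (I2w ++ opt E x w)
    have g3 : Run (W2w ++ (W1w ++ I1w) ++ (I2w ++ opt E x w))
        [Ev.vert w (I1w ++ I2w ++ opt E x w) (O1w ++ O2w ++ opt E w y)]
        (W2w ++ (W1w ++ O1w) ++ (O2w ++ opt E w y)) :=
      (Run.vert1 (W2w ++ W1w) (I1w ++ I2w ++ opt E x w) w (O1w ++ O2w ++ opt E w y) []).cast
        (by simp) (by simp)
    have g4 := r3.context W2w (O2w ++ opt E w y)
    have g5 : Run (W2w ++ [] ++ (O2w ++ opt E w y)) b2 (W2y ++ (I2y ++ opt E w y)) :=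
      (s2.context [] (opt E w y)).cast (by simp) (by simp)
    exact (((g1.append g2).append g3).append g4).append g5
  · refine e1.congr fun e => ?_
    simp only [mem_ofPred_eq, mem_union, mem_singleton_iff]
    constructor
    · rintro ⟨h1, h2, h3⟩; exact ⟨Or.inl (Or.inl h1), h2, h3⟩
    · rintro ⟨(h1 | h1) | h1, h2, h3⟩
      · exact ⟨h1, h2, h3⟩
      · rw [h1, h2] at h3; exact absurd h3 hwx
      · rw [h2] at h3; exact absurd (Or.inl h3) (hc.no2x h1)
  · refine (e2.append (enum_opt E x w) ?_).congr fun e => ?_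
    · rintro e ⟨-, h1, -⟩ ⟨-, h2, -⟩
      rw [h2] at h1; exact hc.w1 h1
    · simp only [mem_ofPred_eq, mem_union, mem_singleton_iff]
      constructor
      · rintro (⟨h1, h2, h3⟩ | ⟨h1, h2, h3⟩)
        · exact ⟨h1, Or.inl (Or.inl h2), h3⟩
        · exact ⟨h1, Or.inl (Or.inr h2), h3⟩
      · rintro ⟨h1, (h2 | h2) | h2, h3⟩
        · exact Or.inl ⟨h1, h2, h3⟩
        · exact Or.inr ⟨h1, h2, h3⟩
        · rw [h1] at h3; exact absurd (Or.inr h3) (hc.no2x h2)
  · refine (f3.append (enum_opt E w y) ?_).congr fun e => ?_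
    · rintro e ⟨h1, -, -⟩ ⟨h2, -, -⟩
      rw [h2] at h1; exact hc.w2 h1
    · simp only [mem_ofPred_eq, mem_union, mem_singleton_iff]
      constructor
      · rintro (⟨h1, h2, h3⟩ | ⟨h1, h2, h3⟩)
        · exact ⟨Or.inr h1, h2, h3⟩
        · exact ⟨Or.inl (Or.inr h1), h2, h3⟩
      · rintro ⟨(h1 | h1) | h1, h2, h3⟩
        · rw [h2] at h3; exact absurd (Or.inl h3) (hc.no1y h1)
        · exact Or.inr ⟨h1, h2, h3⟩
        · exact Or.inl ⟨h1, h2, h3⟩
  · refine f4.congr fun e => ?_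
    simp only [mem_ofPred_eq, mem_union, mem_singleton_iff]
    constructor
    · rintro ⟨h1, h2, h3⟩; exact ⟨h1, Or.inr h2, h3⟩
    · rintro ⟨h1, (h2 | h2) | h2, h3⟩
      · rw [h1] at h3; exact absurd (Or.inr h3) (hc.no1y h2)
      · rw [h1, h2] at h3; exact absurd h3 hyw
      · exact ⟨h1, h2, h3⟩
  · -- events
    intro ev hev
    have hw : OKE E (Ev.vert w (I1w ++ I2w ++ opt E x w) (O1w ++ O2w ++ opt E w y)) := by
      constructor
      · refine ((e3.append f1 ?_).append (enum_opt E x w) ?_).congr fun e => ?_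
        · rintro e ⟨h1, -, -⟩ ⟨h2, -, -⟩
          exact hc.disj _ h1 h2
        · rintro e (⟨h1, -, -⟩ | ⟨h1, -, -⟩) ⟨h2, -, -⟩
          · rw [h2] at h1; exact hc.x1 h1
          · rw [h2] at h1; exact hc.x2 h1
        · simp only [mem_ofPred_eq, mem_union]
          constructor
          · rintro ((⟨h1, h2, h3⟩ | ⟨h1, h2, h3⟩) | ⟨h1, h2, h3⟩)
            · exact ⟨h2, by rw [← h2]; exact h3⟩
            · exact ⟨h2, by rw [← h2]; exact h3⟩
            · exact ⟨h2, by rw [← h2]; exact h3⟩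
          · rintro ⟨h2, h3⟩
            have h3' : E e.1 e.2 := by rw [h2]; exact h3
            rcases hc.nw e.1 (Or.inr h3) with h | h | h | h
            · exact Or.inl (Or.inl ⟨h, h2, h3'⟩)
            · exact Or.inl (Or.inr ⟨h, h2, h3'⟩)
            · exact Or.inr ⟨h, h2, h3'⟩
            · rw [h] at h3; exact absurd h3 hyw
      · refine ((e4.append f2 ?_).append (enum_opt E w y) ?_).congr fun e => ?_
        · rintro e ⟨-, h1, -⟩ ⟨-, h2, -⟩
          exact hc.disj _ h1 h2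
        · rintro e (⟨-, h1, -⟩ | ⟨-, h1, -⟩) ⟨-, h2, -⟩
          · rw [h2] at h1; exact hc.y1 h1
          · rw [h2] at h1; exact hc.y2 h1
        · simp only [mem_ofPred_eq, mem_union]
          constructor
          · rintro ((⟨h1, h2, h3⟩ | ⟨h1, h2, h3⟩) | ⟨h1, h2, h3⟩)
            · exact ⟨h1, by rw [← h1]; exact h3⟩
            · exact ⟨h1, by rw [← h1]; exact h3⟩
            · exact ⟨h1, by rw [← h1]; exact h3⟩
          · rintro ⟨h2, h3⟩
            have h3' : E e.1 e.2 := by rw [h2]; exact h3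
            rcases hc.nw e.2 (Or.inl h3) with h | h | h | h
            · exact Or.inl (Or.inl ⟨h2, h, h3'⟩)
            · exact Or.inl (Or.inr ⟨h2, h, h3'⟩)
            · rw [h] at h3; exact absurd h3 hwx
            · exact Or.inr ⟨h2, h, h3'⟩
    simp only [List.mem_append, List.mem_singleton] at hev ok1 ok2
    rcases hev with (((h | h) | h) | ((((h | h) | h) | h) | h)) | h
    · exact ok2 ev (Or.inl (Or.inl h))
    · exact ok1 ev (Or.inl (Or.inl h))
    · rw [h]; trivial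
    · rw [h]; trivial
    · exact ok1 ev (Or.inl (Or.inr h))
    · rw [h]; exact hw
    · exact ok1 ev (Or.inr h)
    · exact ok2 ev (Or.inl (Or.inr h))
    · exact ok2 ev (Or.inr h)
  · refine (vs_comb nd1 nd2 m1 m2 hc.w1 hc.w2 hc.disj ?_).1
    rw [List.perm_iff_count]
    intro a
    simp only [vs_append, vs_cons_swap, vs_cons_vert, vs_nil, List.count_append, List.count_cons,
      List.count_nil, List.append_nil]
    omega
  · refine (vs_comb nd1 nd2 m1 m2 hc.w1 hc.w2 hc.disj ?_).2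
    rw [List.perm_iff_count]
    intro a
    simp only [vs_append, vs_cons_swap, vs_cons_vert, vs_nil, List.count_append, List.count_cons,
      List.count_nil, List.append_nil]
    omega
  · intro e
    have k1 := c1 e
    have k2 := c2 e
    simp only [cr_append, cr_cons, cr_nil, crE_vert, crE_swap] at k1 k2 ⊢
    have hlen1 : I1x.length + O1x.length ≤ Δ := by
      refine hΔ.two x e1 e2 ?_ ?_ ?_
      · rintro e ⟨h1, h2, -⟩ ⟨h3, -, -⟩
        rw [h3] at h1; exact hc.x1 h1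
      · rintro e ⟨-, h2, h3⟩; exact ⟨Or.inr h2, h3⟩
      · rintro e ⟨h2, -, h3⟩; exact ⟨Or.inl h2, h3⟩
    have hlen2 : I2w.length ≤ Δ := by
      refine hΔ.one w f1 ?_
      rintro e ⟨-, h2, h3⟩; exact ⟨Or.inr h2, h3⟩
    have hsw := swap2_le (A := I1x) (B := I2w) (C := O1x) (Δ := Δ) e1.1 f1.1 e2.1
      (by
        intro e h1 h2
        obtain ⟨-, h1, -⟩ := (e1.2 e).1 h1
        obtain ⟨-, h2, -⟩ := (f1.2 e).1 h2
        exact hc.xw (h1.symm.trans h2))
      (by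
        intro e h1 h2
        obtain ⟨h1, -, -⟩ := (e1.2 e).1 h1
        obtain ⟨h2, -, -⟩ := (e2.2 e).1 h2
        rw [h2] at h1; exact hc.x1 h1)
      (by
        intro e h1 h2
        obtain ⟨h1, -, -⟩ := (f1.2 e).1 h1
        obtain ⟨h2, -, -⟩ := (e2.2 e).1 h2
        rw [h2] at h1; exact hc.x2 h1) hlen1 hlen2 e (ind3 x y w e.1 + ind3 x y w e.2)
      (by
        rintro (h | h | h)
        · obtain ⟨-, h1, -⟩ := (e1.2 e).1 h
          rw [h1, ind3_x]; omega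
        · obtain ⟨-, h1, -⟩ := (f1.2 e).1 h
          rw [h1, ind3_w]; omega
        · obtain ⟨h1, -, -⟩ := (e2.2 e).1 h
          rw [h1, ind3_x]; omega)
    have hexp : Δ * (T₁ e.1 + T₂ e.1 + ind3 x y w e.1 + (T₁ e.2 + T₂ e.2 + ind3 x y w e.2)) =
        Δ * (T₁ e.1 + T₁ e.2) + Δ * (T₂ e.1 + T₂ e.2) +
          Δ * (ind3 x y w e.1 + ind3 x y w e.2) := by ring
    rw [hexp]
    omega

end Pool.UL
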