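import Mathlib

/-!
# Upward drawings of bounded-degree outerplanar DAGs with few crossings per edge (MP_de303a_co, Q1)

Definitions used in the final statement (drawings, crossings, outerplanarity) and the combinatorial
sweep descriptions (`Run`) used in the proof.
-/

open Set

namespace Pool.UL

/-! ## Definitions for the final statement -/

/-- An upward drawing of the digraph with vertex type `V` and arc relation `E`: vertices are mapped
to distinct points of the plane, every arc `u → v` to a curve from the point of `u` to the point of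
`v` which is strictly increasing in the `y`-coordinate (hence a Jordan arc), containing no other
vertex. -/
structure UpwardDrawing {V : Type} (E : V → V → Prop) where
  pos : V → ℝ × ℝ
  inj : Function.Injective pos
  arc : V → V → ℝ → ℝ × ℝ
  cont : ∀ u v, E u v → ContinuousOn (arc u v) (Icc 0 1)
  start : ∀ u v, E u v → arc u v 0 = pos u
  stop : ∀ u v, E u v → arc u v 1 = pos v
  up : ∀ u v, E u v → StrictMonoOn (fun t => (arc u v t).2) (Icc 0 1)
  avoid : ∀ u v w, E u v → w ≠ u → w ≠ v → ∀ t ∈ Icc (0 : ℝ) 1, arc u v t ≠ pos w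

/-- The crossings on the arc `u → v`: pairs of another arc `u' → v'` and a common point of the two
curves which is not a shared endpoint. -/
def UpwardDrawing.crossings {V : Type} {E : V → V → Prop} (D : UpwardDrawing E) (u v : V) :
    Set ((V × V) × (ℝ × ℝ)) :=
  {q | E q.1.1 q.1.2 ∧ q.1 ≠ (u, v) ∧ q.2 ∈ D.arc u v '' Icc 0 1 ∧
    q.2 ∈ D.arc q.1.1 q.1.2 '' Icc 0 1 ∧
    ¬ ∃ w, (w = u ∨ w = v) ∧ (w = q.1.1 ∨ w = q.1.2) ∧ q.2 = D.pos w}

/-- The drawing is `k`-planar: every arc is crossed at most `k` times. -/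
def UpwardDrawing.IsPlanar {V : Type} {E : V → V → Prop} (D : UpwardDrawing E) (k : ℕ) : Prop :=
  ∀ u v, E u v → (D.crossings u v).encard ≤ k

/-- The underlying graph of `E` is outerplanar: the vertices can be placed on a circle (in the cyclic
order given by an injection `π` into `ℕ`) such that the edges, drawn as straight chords, do not
cross. -/
def Outerplanar {V : Type} (E : V → V → Prop) : Prop :=
  ∃ π : V → ℕ, Function.Injective π ∧ ∀ a b c d, (E a b ∨ E b a) → (E c d ∨ E d c) →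
    ¬ (π a < π c ∧ π c < π b ∧ π b < π d)

/-- `E` is acyclic. -/
def Acyclic {V : Type} (E : V → V → Prop) : Prop := ∀ v, ¬ Relation.TransGen E v v

/-- Maximum degree of the underlying graph at most `Δ`. -/
def MaxDeg {V : Type} (E : V → V → Prop) (Δ : ℕ) : Prop :=
  ∀ v, {u | E u v ∨ E v u}.encard ≤ Δ

/-- The final statement. -/
def S_FINAL : Prop :=
  ∀ (Δ : ℕ) (V : Type) [Finite V] (E : V → V → Prop), Acyclic E → Outerplanar E → MaxDeg E Δ →
    ∃ D : UpwardDrawing E, D.IsPlanar (4 * Δ ^ 2 + 10 * Δ)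

/-! ## Sweeps -/

/-- events of a sweep: two adjacent blocks of edges are swapped, or a vertex `v` is passed, where
its in-edges `I` are replaced by its out-edges `O` -/
inductive Ev
  | swap (A B : List (ℕ × ℕ)) : Ev
  | vert (v : ℕ) (I O : List (ℕ × ℕ)) : Ev

/-- `Run L es L'`: the sweep line moves up from the row `L` (list of the edges met, from left to
right) to the row `L'` through the events `es` -/
inductive Run : List (ℕ × ℕ) → List Ev → List (ℕ × ℕ) → Prop
  | nil (L : List (ℕ × ℕ)) : Run L [] L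
  | swap (P A B S : List (ℕ × ℕ)) {es : List Ev} {L' : List (ℕ × ℕ)}
      (h : Run (P ++ B ++ A ++ S) es L') : Run (P ++ A ++ B ++ S) (Ev.swap A B :: es) L'
  | vert (P I : List (ℕ × ℕ)) (v : ℕ) (O S : List (ℕ × ℕ)) {es : List Ev} {L' : List (ℕ × ℕ)}
      (h : Run (P ++ O ++ S) es L') : Run (P ++ I ++ S) (Ev.vert v I O :: es) L'

/-- crossings of `e` at an event -/
def crE (e : ℕ × ℕ) : Ev → ℕ
  | Ev.swap A B => A.count e * B.length + B.count e * A.length
  | Ev.vert _ _ _ => 0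

/-- number of crossings of the edge `e` -/
def cr (e : ℕ × ℕ) (es : List Ev) : ℕ := (es.map (crE e)).sum

/-- vertex of an event -/
def vE : Ev → List ℕ
  | Ev.swap _ _ => []
  | Ev.vert v _ _ => [v]

/-- the vertices passed, in order -/
def vs (es : List Ev) : List ℕ := es.flatMap vE

/-- list `L` enumerates the set `S` without repetition -/
def Enum (L : List (ℕ × ℕ)) (S : Set (ℕ × ℕ)) : Prop := L.Nodup ∧ ∀ e, e ∈ L ↔ e ∈ S

/-- the lists of a vertex event are the in-edges and the out-edges of the vertex -/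
def OKE (E : ℕ → ℕ → Prop) : Ev → Prop
  | Ev.swap _ _ => True
  | Ev.vert v I O => Enum I {e | e.2 = v ∧ E e.1 v} ∧ Enum O {e | e.1 = v ∧ E v e.2}

/-- functional form of an upward drawing of a digraph on `{0, …, n-1}`: vertex `i` at
`(X i, Y i)`, the edge `i → j` is the graph `x = f i j y` over `[Y i, Y j]`; at most `c i j`
crossings on the edge `i → j` -/
def Drawable (n : ℕ) (E : ℕ → ℕ → Prop) (c : ℕ → ℕ → ℕ) : Prop :=
  ∃ (X Y : ℕ → ℝ) (f : ℕ → ℕ → ℝ → ℝ),
    (∀ i < n, ∀ j < n, Y i = Y j → i = j) ∧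
    (∀ i j, E i j → Y i < Y j ∧ ContinuousOn (f i j) (Icc (Y i) (Y j)) ∧
      f i j (Y i) = X i ∧ f i j (Y j) = X j ∧
      (∀ w < n, w ≠ i → w ≠ j → Y w ∈ Icc (Y i) (Y j) → f i j (Y w) ≠ X w) ∧
      {q : (ℕ × ℕ) × ℝ | E q.1.1 q.1.2 ∧ q.1 ≠ (i, j) ∧ q.2 ∈ Icc (Y i) (Y j) ∧
        q.2 ∈ Icc (Y q.1.1) (Y q.1.2) ∧ f i j q.2 = f q.1.1 q.1.2 q.2 ∧
        ¬ ∃ w, (w = i ∨ w = j) ∧ (w = q.1.1 ∨ w = q.1.2) ∧ q.2 = Y w}.encard ≤ c i j)

/-- GEO: from a sweep to a drawing -/
def S_GEO : Prop :=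
  ∀ (n : ℕ) (E : ℕ → ℕ → Prop) (es : List Ev), (∀ i j, E i j → i < n ∧ j < n ∧ i ≠ j) →
    (∀ i j, E i j → ¬ E j i) →
    Run [] es [] → (∀ ev ∈ es, OKE E ev) → (vs es).Nodup → (∀ v, v ∈ vs es ↔ v < n) →
    Drawable n E (fun i j => cr (i, j) es)

/-- at most `Δ` edges at every vertex -/
def DegLe (E : ℕ → ℕ → Prop) (Δ : ℕ) : Prop :=
  ∀ (v : ℕ) (L : List (ℕ × ℕ)), L.Nodup → (∀ e ∈ L, (e.1 = v ∨ e.2 = v) ∧ E e.1 e.2) →
    L.length ≤ Δ

/-- RUN: existence of the sweep for a topologically ordered outerplanar graph on `{0, …, n-1}`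
(vertices in the order of the outer circle, `σ` = topological order) -/
def S_RUN : Prop :=
  ∀ (Δ n : ℕ) (E : ℕ → ℕ → Prop) (σ : ℕ → ℕ), Function.Injective σ →
    (∀ i j, E i j → i < n ∧ j < n ∧ σ i < σ j) →
    (∀ a b c d, (E a b ∨ E b a) → (E c d ∨ E d c) → ¬ (a < c ∧ c < b ∧ b < d)) →
    DegLe E Δ →
    ∃ es, Run [] es [] ∧ (∀ ev ∈ es, OKE E ev) ∧ (vs es).Nodup ∧ (∀ v, v ∈ vs es ↔ v < n) ∧
      ∀ e, cr e es ≤ 4 * Δ ^ 2 + 10 * Δ

/-- ORD: reduction of the final statement to labelled graphs -/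
def S_ORD : Prop :=
  (∀ (Δ n : ℕ) (E : ℕ → ℕ → Prop) (σ : ℕ → ℕ), Function.Injective σ →
    (∀ i j, E i j → i < n ∧ j < n ∧ σ i < σ j) →
    (∀ a b c d, (E a b ∨ E b a) → (E c d ∨ E d c) → ¬ (a < c ∧ c < b ∧ b < d)) →
    DegLe E Δ → Drawable n E (fun _ _ => 4 * Δ ^ 2 + 10 * Δ)) → S_FINAL

end Pool.UL
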