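import Pool.Agent.Helper8.UL.IND
import Pool.Agent.Helper8.UL.COMBM

/-! Assembly. -/

open Set

namespace Pool.UL

theorem Drawable.mono {n : ℕ} {E : ℕ → ℕ → Prop} {c c' : ℕ → ℕ → ℕ} (h : Drawable n E c)
    (hc : ∀ i j, c i j ≤ c' i j) : Drawable n E c' := by
  obtain ⟨X, Y, f, h1, h2⟩ := h
  refine ⟨X, Y, f, h1, fun i j hij => ?_⟩
  obtain ⟨k1, k2, k3, k4, k5, k6⟩ := h2 i j hij
  exact ⟨k1, k2, k3, k4, k5, k6.trans (by exact_mod_cast hc i j)⟩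

theorem final (hO : S_ORD) (hR : S_ROWS) (hL : S_LIN) (hA : S_COMBA) (hB : S_COMBB) : S_FINAL := by
  apply hO
  intro Δ n E σ hσ hE hnc hΔ
  obtain ⟨es, r, ok, nd, mem, hcr⟩ := ind_thm combM_thm hA hB Δ n E σ hσ hE hnc hΔ
  have hE1 : ∀ i j, E i j → i < n ∧ j < n ∧ i ≠ j := by
    intro i j h
    obtain ⟨h1, h2, h3⟩ := hE i j h
    exact ⟨h1, h2, fun h => by subst h; exact lt_irrefl _ h3⟩
  have hE2 : ∀ i j, E i j → ¬ E j i := by
    intro i j h h'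
    have := (hE i j h).2.2
    have := (hE j i h').2.2
    omega
  exact (hL n E _ hE1 hE2 (hR n E es hE1 hE2 r ok nd mem)).mono (fun i j => hcr (i, j))

end Pool.UL
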