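import Pool.Agent.Helper8.UL.Base

/-! Part IND: zigzag induction on intervals. -/

open Set

namespace Pool.UL

theorem DegLe.card {E : ℕ → ℕ → Prop} {Δ : ℕ} (hΔ : DegLe E Δ) (v : ℕ) (hv : ¬ E v v)
    (S : Finset ℕ) (hS : ∀ q ∈ S, E v q ∨ E q v) : S.card ≤ Δ := by
  classical
  have hinj : ∀ q ∈ S.toList, ∀ q' ∈ S.toList,
      (if E v q then (v, q) else (q, v)) = (if E v q' then (v, q') else (q', v)) → q = q' := by
    intro q hq q' hq' h
    have h1 := hS q (Finset.mem_toList.1 hq)
    have h2 := hS q' (Finset.mem_toList.1 hq')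
    split_ifs at h with ha hb hb
    · exact congrArg Prod.snd h
    · have e1 := congrArg Prod.snd h
      simp only at e1
      rw [e1] at ha
      exact absurd ha hv
    · have e1 := congrArg Prod.snd h
      simp only at e1
      rw [← e1] at hb
      exact absurd hb hv
    · exact congrArg Prod.fst h
  have := hΔ v (S.toList.map (fun q => if E v q then (v, q) else (q, v)))
    (List.Nodup.map_on hinj S.nodup_toList) (by
      intro e he
      rw [List.mem_map] at he
      obtain ⟨q, hq, rfl⟩ := he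
      have h1 := hS q (Finset.mem_toList.1 hq)
      split_ifs with ha
      · exact ⟨Or.inl rfl, ha⟩
      · exact ⟨Or.inr rfl, h1.resolve_left ha⟩)
  simpa using this

open Classical in
/-- `Good` for an unordered pair -/
def GoodU (E : ℕ → ℕ → Prop) (Δ : ℕ) (σ : ℕ → ℕ) (a b : ℕ) (H : Set ℕ) (T : ℕ → ℕ) : Prop :=
  if σ a < σ b then Good E Δ a b H T else Good E Δ b a H T

theorem goodU_comm {E : ℕ → ℕ → Prop} {Δ : ℕ} {σ : ℕ → ℕ} (hσ : Function.Injective σ) {a b : ℕ}
    (hab : a ≠ b) {H : Set ℕ} {T : ℕ → ℕ} (h : GoodU E Δ σ a b H T) : GoodU E Δ σ b a H T := by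
  unfold GoodU at *
  have : σ a ≠ σ b := fun h => hab (hσ h)
  split_ifs at h ⊢ with h1 h2 h2
  · omega
  · exact h
  · exact h
  · omega

theorem Cfg.symm {E : ℕ → ℕ → Prop} {x y w : ℕ} {H₁ H₂ : Set ℕ} (h : Cfg E x y w H₁ H₂) :
    Cfg E y x w H₂ H₁ where
  xy := h.xy.symm
  xw := h.yw
  yw := h.xw
  x1 := h.y2
  x2 := h.y1
  y1 := h.x2
  y2 := h.x1
  w1 := h.w2
  w2 := h.w1
  disj := fun v h2 h1 => h.disj v h1 h2
  irr := h.irr
  n1 := fun p hp q hq => by
    rcases h.n2 p hp q hq with h | h | h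
    · exact Or.inl h
    · exact Or.inr (Or.inr h)
    · exact Or.inr (Or.inl h)
  n2 := fun p hp q hq => by
    rcases h.n1 p hp q hq with h | h | h
    · exact Or.inl h
    · exact Or.inr (Or.inr h)
    · exact Or.inr (Or.inl h)
  nw := fun q hq => by
    rcases h.nw q hq with h | h | h | h
    · exact Or.inr (Or.inl h)
    · exact Or.inl h
    · exact Or.inr (Or.inr (Or.inr h))
    · exact Or.inr (Or.inr (Or.inl h))

theorem combU_lt (hM : S_COMBM) (hA : S_COMBA) (hB : S_COMBB) {E : ℕ → ℕ → Prop} {Δ : ℕ}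
    {σ : ℕ → ℕ} (hσ : Function.Injective σ) (hE : ∀ i j, E i j → σ i < σ j) (hΔ : DegLe E Δ)
    {a b w : ℕ} {H₁ H₂ : Set ℕ} {T₁ T₂ : ℕ → ℕ} (hc : Cfg E a b w H₁ H₂) (hab : σ a < σ b)
    (h1 : GoodU E Δ σ a w H₁ T₁) (h2 : GoodU E Δ σ w b H₂ T₂) :
    Good E Δ a b (H₁ ∪ {w} ∪ H₂) (fun v => T₁ v + T₂ v + ind3 a b w v) := by
  have haw : σ a ≠ σ w := fun h => hc.xw (hσ h)
  have hbw : σ b ≠ σ w := fun h => hc.yw (hσ h)
  unfold GoodU at h1 h2
  by_cases c1 : σ a < σ w
  · rw [if_pos c1] at h1
    by_cases c2 : σ w < σ b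
    · rw [if_pos c2] at h2
      exact hM E Δ a b w H₁ H₂ T₁ T₂ hΔ hc (fun h => by have := hE _ _ h; omega)
        (fun h => by have := hE _ _ h; omega) h1 h2
    · rw [if_neg c2] at h2
      exact hA E Δ a b w H₁ H₂ T₁ T₂ hΔ hc (fun h => by have := hE _ _ h; omega)
        (fun h => by have := hE _ _ h; omega) h1 h2
  · rw [if_neg c1] at h1
    have c2 : σ w < σ b := by omega
    rw [if_pos c2] at h2
    exact hB E Δ a b w H₁ H₂ T₁ T₂ hΔ hc (fun h => by have := hE _ _ h; omega)
      (fun h => by have := hE _ _ h; omega) h1 h2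

theorem combU (hM : S_COMBM) (hA : S_COMBA) (hB : S_COMBB) {E : ℕ → ℕ → Prop} {Δ : ℕ}
    {σ : ℕ → ℕ} (hσ : Function.Injective σ) (hE : ∀ i j, E i j → σ i < σ j) (hΔ : DegLe E Δ)
    {a b w : ℕ} {H₁ H₂ : Set ℕ} {T₁ T₂ : ℕ → ℕ} (hc : Cfg E a b w H₁ H₂)
    (h1 : GoodU E Δ σ a w H₁ T₁) (h2 : GoodU E Δ σ w b H₂ T₂) :
    GoodU E Δ σ a b (H₁ ∪ {w} ∪ H₂) (fun v => T₁ v + T₂ v + ind3 a b w v) := by
  have hne : σ a ≠ σ b := fun h => hc.xy (hσ h)
  by_cases hab : σ a < σ b
  · have := combU_lt hM hA hB hσ hE hΔ hc hab h1 h2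
    unfold GoodU
    rw [if_pos hab]
    exact this
  · have := combU_lt hM hA hB hσ hE hΔ hc.symm (by omega)
      (goodU_comm hσ hc.yw.symm h2) (goodU_comm hσ hc.xw h1)
    unfold GoodU
    rw [if_neg hab]
    have hset : H₁ ∪ {w} ∪ H₂ = H₂ ∪ {w} ∪ H₁ := by
      ext v; simp only [mem_union, mem_singleton_iff]; tauto
    have hT : (fun v => T₁ v + T₂ v + ind3 a b w v) = (fun v => T₂ v + T₁ v + ind3 b a w v) := by
      funext v
      have : ind3 a b w v = ind3 b a w v := by
        unfold ind3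
        congr 1
        apply propext
        tauto
      rw [this]
      ring
    rw [hset, hT]
    exact this

/-- empty part -/
theorem goodU_empty (E : ℕ → ℕ → Prop) (Δ : ℕ) (σ : ℕ → ℕ) (a b : ℕ) {H : Set ℕ} (hH : H = ∅) :
    GoodU E Δ σ a b H (fun _ => 0) := by
  subst hH
  have key : ∀ x y : ℕ, Good E Δ x y ∅ (fun _ => 0) := by
    intro x y
    refine ⟨[], [], [], [], [], [], [], [], [], Run.nil _, Run.nil _, Run.nil _, ?_, ?_, ?_, ?_,
      ?_, ?_, ?_, ?_⟩
    · exact ⟨List.nodup_nil, by simp⟩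
    · exact ⟨List.nodup_nil, by simp⟩
    · exact ⟨List.nodup_nil, by simp⟩
    · exact ⟨List.nodup_nil, by simp⟩
    · simp
    · simp
    · simp
    · simp
  unfold GoodU
  split_ifs
  · exact key a b
  · exact key b a

/-- all edges at inner vertices of the interval stay inside -/
def Closed (E : ℕ → ℕ → Prop) (a b : ℕ) : Prop :=
  ∀ p, a < p → p < b → ∀ q, (E p q ∨ E q p) → a ≤ q ∧ q ≤ b

open Classical in
/-- number of neighbours of `v` in the open interval -/
noncomputable def dg (E : ℕ → ℕ → Prop) (v a b : ℕ) : ℕ :=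
  ((Finset.Ioo a b).filter (fun q => E v q ∨ E q v)).card

theorem dg_mono {E : ℕ → ℕ → Prop} {v a b a' b' : ℕ} (h1 : a ≤ a') (h2 : b' ≤ b) :
    dg E v a' b' ≤ dg E v a b := by
  classical
  unfold dg
  apply Finset.card_le_card
  intro q hq
  simp only [Finset.mem_filter, Finset.mem_Ioo] at hq ⊢
  exact ⟨⟨by omega, by omega⟩, hq.2⟩

/-- splitting at a neighbour: one neighbour less -/
theorem dg_split {E : ℕ → ℕ → Prop} {v a b w : ℕ} (h1 : a < w) (h2 : w < b) :
    dg E v a w + dg E v w b ≤ dg E v a b := by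
  classical
  unfold dg
  rw [← Finset.card_union_of_disjoint]
  · apply Finset.card_le_card
    intro q hq
    simp only [Finset.mem_union, Finset.mem_filter, Finset.mem_Ioo] at hq ⊢
    rcases hq with hq | hq
    · exact ⟨⟨by omega, by omega⟩, hq.2⟩
    · exact ⟨⟨by omega, by omega⟩, hq.2⟩
  · rw [Finset.disjoint_left]
    intro q hq hq'
    simp only [Finset.mem_filter, Finset.mem_Ioo] at hq hq'
    omega

theorem dg_lt {E : ℕ → ℕ → Prop} {v a b w a' b' : ℕ} (h1 : a < w) (h2 : w < b)
    (hw : E v w ∨ E w v) (ha : a ≤ a') (hb : b' ≤ b) (hout : w ≤ a' ∨ b' ≤ w) :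
    dg E v a' b' + 1 ≤ dg E v a b := by
  classical
  unfold dg
  apply Finset.card_lt_card
  rw [Finset.ssubset_iff_of_subset]
  · refine ⟨w, ?_, ?_⟩
    · simp only [Finset.mem_filter, Finset.mem_Ioo]
      exact ⟨⟨h1, h2⟩, hw⟩
    · simp only [Finset.mem_filter, Finset.mem_Ioo]
      rintro ⟨⟨h3, h4⟩, -⟩
      omega
  · intro q hq
    simp only [Finset.mem_filter, Finset.mem_Ioo] at hq ⊢
    exact ⟨⟨by omega, by omega⟩, hq.2⟩

theorem dg_le {E : ℕ → ℕ → Prop} {Δ : ℕ} (hΔ : DegLe E Δ) {v : ℕ} (hv : ¬ E v v) (a b : ℕ) :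
    dg E v a b ≤ Δ := by
  classical
  unfold dg
  apply hΔ.card v hv
  intro q hq
  simp only [Finset.mem_filter, Finset.mem_Ioo] at hq
  exact hq.2

theorem cfg_interval {E : ℕ → ℕ → Prop} {a b w : ℕ} (haw : a < w) (hwb : w < b)
    (hirr : ∀ v, ¬ E v v) (h : Closed E a b) (h1 : Closed E a w) (h2 : Closed E w b) :
    Cfg E a b w (Ioo a w) (Ioo w b) where
  xy := by omega
  xw := by omega
  yw := by omega
  x1 := fun h => absurd h.1 (lt_irrefl _)
  x2 := fun h => by have := h.1; omega
  y1 := fun h => by have := h.2; omega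
  y2 := fun h => absurd h.2 (lt_irrefl _)
  w1 := fun h => absurd h.2 (lt_irrefl _)
  w2 := fun h => absurd h.1 (lt_irrefl _)
  disj := fun v hv hv' => by have := hv.2; have := hv'.1; omega
  irr := hirr w
  n1 := fun p hp q hq => by
    have := h1 p hp.1 hp.2 q hq
    by_cases c1 : q = a
    · exact Or.inr (Or.inl c1)
    by_cases c2 : q = w
    · exact Or.inr (Or.inr c2)
    exact Or.inl ⟨by omega, by omega⟩
  n2 := fun p hp q hq => by
    have := h2 p hp.1 hp.2 q hq
    by_cases c1 : q = w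
    · exact Or.inr (Or.inl c1)
    by_cases c2 : q = b
    · exact Or.inr (Or.inr c2)
    exact Or.inl ⟨by omega, by omega⟩
  nw := fun q hq => by
    have := h w haw hwb q hq
    have hne : q ≠ w := by
      rintro rfl
      rcases hq with h | h <;> exact hirr _ h
    by_cases c1 : q = a
    · exact Or.inr (Or.inr (Or.inl c1))
    by_cases c2 : q = b
    · exact Or.inr (Or.inr (Or.inr c2))
    by_cases c3 : q < w
    · exact Or.inl ⟨by omega, c3⟩
    · exact Or.inr (Or.inl ⟨by omega, by omega⟩)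

/-- choice of the apex attached to the left end -/
theorem exists_left {E : ℕ → ℕ → Prop}
    (hnc : ∀ a b c d, (E a b ∨ E b a) → (E c d ∨ E d c) → ¬ (a < c ∧ c < b ∧ b < d)) {a b : ℕ}
    (hab : a + 1 < b) (h : Closed E a b) :
    ∃ w, a < w ∧ w < b ∧ Closed E a w ∧ Closed E w b ∧ (w = a + 1 ∨ (E a w ∨ E w a)) := by
  classical
  by_cases hne : ((Finset.Ioo a b).filter (fun q => E a q ∨ E q a)).Nonempty
  · obtain ⟨w, hw, hmax⟩ := Finset.exists_max_image _ id hne
    simp only [Finset.mem_filter, Finset.mem_Ioo, id] at hw hmax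
    refine ⟨w, hw.1.1, hw.1.2, ?_, ?_, Or.inr hw.2⟩
    · intro p hp1 hp2 q hq
      have hq' := h p hp1 (by omega) q hq
      refine ⟨hq'.1, ?_⟩
      by_contra hcon
      exact hnc a w p q hw.2 hq ⟨hp1, hp2, by omega⟩
    · intro p hp1 hp2 q hq
      have hq' := h p (by omega) hp2 q hq
      refine ⟨?_, hq'.2⟩
      by_contra hcon
      by_cases hqa : q = a
      · subst hqa
        have := hmax p ⟨⟨by omega, hp2⟩, hq.symm⟩
        omega
      · exact hnc a w q p hw.2 hq.symm ⟨by omega, by omega, hp1⟩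
  · rw [Finset.not_nonempty_iff_eq_empty, Finset.filter_eq_empty_iff] at hne
    refine ⟨a + 1, by omega, hab, fun p hp1 hp2 => by omega, ?_, Or.inl rfl⟩
    intro p hp1 hp2 q hq
    have hq' := h p (by omega) hp2 q hq
    refine ⟨?_, hq'.2⟩
    by_contra hcon
    have hqa : q = a := by omega
    subst hqa
    exact hne (Finset.mem_Ioo.2 ⟨by omega, hp2⟩) hq.symm

/-- choice of the apex attached to the right end -/
theorem exists_right {E : ℕ → ℕ → Prop}
    (hnc : ∀ a b c d, (E a b ∨ E b a) → (E c d ∨ E d c) → ¬ (a < c ∧ c < b ∧ b < d)) {a b : ℕ}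
    (hab : a + 1 < b) (h : Closed E a b) :
    ∃ w, a < w ∧ w < b ∧ Closed E a w ∧ Closed E w b ∧ (w + 1 = b ∨ (E b w ∨ E w b)) := by
  classical
  by_cases hne : ((Finset.Ioo a b).filter (fun q => E b q ∨ E q b)).Nonempty
  · obtain ⟨w, hw, hmin⟩ := Finset.exists_min_image _ id hne
    simp only [Finset.mem_filter, Finset.mem_Ioo, id] at hw hmin
    refine ⟨w, hw.1.1, hw.1.2, ?_, ?_, Or.inr hw.2⟩
    · intro p hp1 hp2 q hq
      have hq' := h p hp1 (by omega) q hq
      refine ⟨hq'.1, ?_⟩
      by_contra hcon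
      by_cases hqb : q = b
      · subst hqb
        have := hmin p ⟨⟨hp1, by omega⟩, hq.symm⟩
        omega
      · exact hnc p q w b hq hw.2.symm ⟨hp2, by omega, by omega⟩
    · intro p hp1 hp2 q hq
      have hq' := h p (by omega) hp2 q hq
      refine ⟨?_, hq'.2⟩
      by_contra hcon
      exact hnc q p w b hq.symm hw.2.symm ⟨by omega, hp1, hp2⟩
  · rw [Finset.not_nonempty_iff_eq_empty, Finset.filter_eq_empty_iff] at hne
    refine ⟨b - 1, by omega, by omega, ?_, fun p hp1 hp2 => by omega, Or.inl (by omega)⟩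
    intro p hp1 hp2 q hq
    have hq' := h p hp1 (by omega) q hq
    refine ⟨hq'.1, ?_⟩
    by_contra hcon
    have hqb : q = b := by omega
    subst hqb
    exact hne (Finset.mem_Ioo.2 ⟨hp1, by omega⟩) hq.symm

theorem ind3_zero {x y w v : ℕ} (h1 : v ≠ x) (h2 : v ≠ y) (h3 : v ≠ w) : ind3 x y w v = 0 := by
  simp [ind3, h1, h2, h3]

theorem union_Ioo {a b w : ℕ} (h1 : a < w) (h2 : w < b) : Ioo a w ∪ {w} ∪ Ioo w b = Ioo a b := by
  ext v
  simp only [mem_union, mem_Ioo, mem_singleton_iff]
  omega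

theorem key (hM : S_COMBM) (hA : S_COMBA) (hB : S_COMBB) {E : ℕ → ℕ → Prop} {Δ : ℕ}
    {σ : ℕ → ℕ} (hσ : Function.Injective σ) (hE : ∀ i j, E i j → σ i < σ j) (hΔ : DegLe E Δ)
    (hnc : ∀ a b c d, (E a b ∨ E b a) → (E c d ∨ E d c) → ¬ (a < c ∧ c < b ∧ b < d)) :
    ∀ (m a b : ℕ) (fl : Bool), a < b → b - a ≤ m → Closed E a b →
      ∃ T : ℕ → ℕ, GoodU E Δ σ a b (Ioo a b) T ∧ (b = a + 1 → ∀ v, T v = 0) ∧
        (∀ v, v < a ∨ b < v → T v = 0) ∧ (∀ v, a < v → v < b → T v ≤ 2 * Δ + 5) ∧
        (fl = false → T a ≤ dg E a a b + 1 ∧ T b ≤ 2 * dg E b a b + 2) ∧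
        (fl = true → T a ≤ dg E a a b + 2 ∧ T b ≤ 2 * dg E b a b + 1) := by
  have hirr : ∀ v, ¬ E v v := fun v h => absurd (hE v v h) (lt_irrefl _)
  intro m
  induction m with
  | zero => intro a b fl hab hm; omega
  | succ m ih =>
    intro a b fl hab hm hcl
    by_cases hleaf : b = a + 1
    · refine ⟨fun _ => 0, goodU_empty E Δ σ a b ?_, fun _ _ => rfl, fun _ _ => rfl,
        fun _ _ _ => Nat.zero_le _, fun _ => ⟨Nat.zero_le _, Nat.zero_le _⟩,
        fun _ => ⟨Nat.zero_le _, Nat.zero_le _⟩⟩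
      ext v
      simp only [mem_Ioo, mem_empty_iff_false, iff_false]
      omega
    have hab1 : a + 1 < b := by omega
    cases fl with
    | false =>
      obtain ⟨w, haw, hwb, hc1, hc2, hw⟩ := exists_left hnc hab1 hcl
      obtain ⟨T₁, g1, l1, z1, i1, f1, -⟩ := ih a w false haw (by omega) hc1
      obtain ⟨T₂, g2, l2, z2, i2, -, f2⟩ := ih w b true hwb (by omega) hc2
      obtain ⟨f1a, f1w⟩ := f1 rfl
      obtain ⟨f2w, f2b⟩ := f2 rfl
      have hcfg := cfg_interval haw hwb hirr hcl hc1 hc2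
      have hg := combU hM hA hB hσ hE hΔ hcfg g1 g2
      rw [union_Ioo haw hwb] at hg
      have hsp := dg_split (E := E) (v := w) haw hwb
      have hdw := dg_le hΔ (hirr w) a b
      have hmb := dg_mono (E := E) (v := b) haw.le (le_refl b)
      refine ⟨_, hg, fun h => absurd h hleaf, ?_, ?_, ?_, fun h => by simp at h⟩
      · intro v hv
        have h1 := z1 v (by omega)
        have h2 := z2 v (by omega)
        have h3 := ind3_zero (x := a) (y := b) (w := w) (v := v) (by omega) (by omega) (by omega)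
        simp only [h1, h2, h3]
      · intro v hv1 hv2
        rcases lt_trichotomy v w with h | h | h
        · have h1 := i1 v hv1 h
          have h2 := z2 v (Or.inl h)
          have h3 := ind3_zero (x := a) (y := b) (w := w) (v := v) (by omega) (by omega) (by omega)
          simp only [h2, h3]
          omega
        · subst h
          simp only [ind3_w]
          omega
        · have h1 := i2 v h hv2
          have h2 := z1 v (Or.inr h)
          have h3 := ind3_zero (x := a) (y := b) (w := w) (v := v) (by omega) (by omega) (by omega)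
          simp only [h2, h3]
          omega
      · intro _
        have h2a := z2 a (Or.inl haw)
        have h1b := z1 b (Or.inr hwb)
        simp only [h2a, h1b, ind3_x, ind3_y]
        constructor
        · rcases hw with hw | hw
          · have := l1 hw a
            omega
          · have := dg_lt (E := E) (v := a) (a' := a) (b' := w) haw hwb hw (le_refl _) hwb.le
              (Or.inr (le_refl _))
            omega
        · omega
    | true =>
      obtain ⟨w, haw, hwb, hc1, hc2, hw⟩ := exists_right hnc hab1 hcl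
      obtain ⟨T₁, g1, l1, z1, i1, f1, -⟩ := ih a w false haw (by omega) hc1
      obtain ⟨T₂, g2, l2, z2, i2, f2, -⟩ := ih w b false hwb (by omega) hc2
      obtain ⟨f1a, f1w⟩ := f1 rfl
      obtain ⟨f2w, f2b⟩ := f2 rfl
      have hcfg := cfg_interval haw hwb hirr hcl hc1 hc2
      have hg := combU hM hA hB hσ hE hΔ hcfg g1 g2
      rw [union_Ioo haw hwb] at hg
      have hsp := dg_split (E := E) (v := w) haw hwb
      have hdw := dg_le hΔ (hirr w) a b
      have hma := dg_mono (E := E) (v := a) (le_refl a) hwb.le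
      refine ⟨_, hg, fun h => absurd h hleaf, ?_, ?_, fun h => by simp at h, ?_⟩
      · intro v hv
        have h1 := z1 v (by omega)
        have h2 := z2 v (by omega)
        have h3 := ind3_zero (x := a) (y := b) (w := w) (v := v) (by omega) (by omega) (by omega)
        simp only [h1, h2, h3]
      · intro v hv1 hv2
        rcases lt_trichotomy v w with h | h | h
        · have h1 := i1 v hv1 h
          have h2 := z2 v (Or.inl h)
          have h3 := ind3_zero (x := a) (y := b) (w := w) (v := v) (by omega) (by omega) (by omega)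
          simp only [h2, h3]
          omega
        · subst h
          simp only [ind3_w]
          omega
        · have h1 := i2 v h hv2
          have h2 := z1 v (Or.inr h)
          have h3 := ind3_zero (x := a) (y := b) (w := w) (v := v) (by omega) (by omega) (by omega)
          simp only [h2, h3]
          omega
      · intro _
        have h2a := z2 a (Or.inl haw)
        have h1b := z1 b (Or.inr hwb)
        simp only [h2a, h1b, ind3_x, ind3_y]
        constructor
        · omega
        · rcases hw with hw | hw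
          · have := l2 (by omega) b
            omega
          · have := dg_lt (E := E) (v := b) (a' := w) (b' := b) haw hwb hw haw.le (le_refl _)
              (Or.inl (le_refl _))
            omega

/-- the sweep of the whole graph -/
theorem whole {E : ℕ → ℕ → Prop} {Δ x y : ℕ} {H : Set ℕ} {T : ℕ → ℕ} (hxy : x ≠ y) (hx : x ∉ H)
    (hy : y ∉ H) (hirr : ∀ v, ¬ E v v) (hyx : ¬ E y x)
    (hall : ∀ i j, E i j → (i = x ∨ i = y ∨ i ∈ H) ∧ (j = x ∨ j = y ∨ j ∈ H))
    (h : Good E Δ x y H T) :
    ∃ es, Run [] es [] ∧ (∀ ev ∈ es, OKE E ev) ∧ (vs es).Nodup ∧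
      (∀ v, v ∈ vs es ↔ v = x ∨ v = y ∨ v ∈ H) ∧ ∀ e, cr e es ≤ Δ * (T e.1 + T e.2) := by
  obtain ⟨Wx, Ix, Ox, Wy, Iy, Oy, a1, a2, a3, r1, r2, r3, e1, e2, e3, e4, ok1, nd1, m1, c1⟩ := h
  refine ⟨a1 ++ [Ev.vert x Ix (Ox ++ opt E x y)] ++ a2 ++ [Ev.vert y (Iy ++ opt E x y) Oy] ++ a3,
    ?_, ?_, ?_, ?_, ?_⟩
  · have g1 : Run (Wx ++ Ix) [Ev.vert x Ix (Ox ++ opt E x y)] (Wx ++ Ox ++ opt E x y) :=
      (Run.vert1 Wx Ix x (Ox ++ opt E x y) []).cast (by simp) (by simp)
    have g2 : Run (Wx ++ Ox ++ opt E x y) a2 (Wy ++ Iy ++ opt E x y) :=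
      (r2.context [] (opt E x y)).cast (by simp) (by simp)
    have g3 : Run (Wy ++ Iy ++ opt E x y) [Ev.vert y (Iy ++ opt E x y) Oy] (Wy ++ Oy) :=
      (Run.vert1 Wy (Iy ++ opt E x y) y Oy []).cast (by simp) (by simp)
    exact (((r1.append g1).append g2).append g3).append r3
  · have hx' : OKE E (Ev.vert x Ix (Ox ++ opt E x y)) := by
      constructor
      · refine e1.congr fun e => ?_
        simp only [mem_ofPred_eq]
        constructor
        · rintro ⟨h1, h2, h3⟩; exact ⟨h2, by rw [← h2]; exact h3⟩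
        · rintro ⟨h2, h3⟩
          rcases (hall _ _ h3).1 with h | h | h
          · rw [h] at h3; exact absurd h3 (hirr x)
          · rw [h] at h3; exact absurd h3 hyx
          · exact ⟨h, h2, by rw [h2]; exact h3⟩
      · refine (e2.append (enum_opt E x y) ?_).congr fun e => ?_
        · rintro e ⟨-, h1, -⟩ ⟨-, h2, -⟩
          rw [h2] at h1; exact hy h1
        · simp only [mem_ofPred_eq, mem_union]
          constructor
          · rintro (⟨h1, h2, h3⟩ | ⟨h1, h2, h3⟩)
            · exact ⟨h1, by rw [← h1]; exact h3⟩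
            · exact ⟨h1, by rw [← h1]; exact h3⟩
          · rintro ⟨h2, h3⟩
            have h3' : E e.1 e.2 := by rw [h2]; exact h3
            rcases (hall _ _ h3).2 with h | h | h
            · rw [h] at h3; exact absurd h3 (hirr x)
            · exact Or.inr ⟨h2, h, h3'⟩
            · exact Or.inl ⟨h2, h, h3'⟩
    have hy' : OKE E (Ev.vert y (Iy ++ opt E x y) Oy) := by
      constructor
      · refine (e3.append (enum_opt E x y) ?_).congr fun e => ?_
        · rintro e ⟨h1, -, -⟩ ⟨h2, -, -⟩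
          rw [h2] at h1; exact hx h1
        · simp only [mem_ofPred_eq, mem_union]
          constructor
          · rintro (⟨h1, h2, h3⟩ | ⟨h1, h2, h3⟩)
            · exact ⟨h2, by rw [← h2]; exact h3⟩
            · exact ⟨h2, by rw [← h2]; exact h3⟩
          · rintro ⟨h2, h3⟩
            have h3' : E e.1 e.2 := by rw [h2]; exact h3
            rcases (hall _ _ h3).1 with h | h | h
            · exact Or.inr ⟨h, h2, h3'⟩
            · rw [h] at h3; exact absurd h3 (hirr y)
            · exact Or.inl ⟨h, h2, h3'⟩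
      · refine e4.congr fun e => ?_
        simp only [mem_ofPred_eq]
        constructor
        · rintro ⟨h1, h2, h3⟩; exact ⟨h1, by rw [← h1]; exact h3⟩
        · rintro ⟨h2, h3⟩
          rcases (hall _ _ h3).2 with h | h | h
          · rw [h] at h3; exact absurd h3 hyx
          · rw [h] at h3; exact absurd h3 (hirr y)
          · exact ⟨h2, h, by rw [h2]; exact h3⟩
    intro ev hev
    simp only [List.mem_append, List.mem_singleton] at hev ok1
    rcases hev with (((h | h) | h) | h) | h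
    · exact ok1 ev (Or.inl (Or.inl h))
    · rw [h]; exact hx'
    · exact ok1 ev (Or.inl (Or.inr h))
    · rw [h]; exact hy'
    · exact ok1 ev (Or.inr h)
  · have hp : (vs (a1 ++ [Ev.vert x Ix (Ox ++ opt E x y)] ++ a2 ++
        [Ev.vert y (Iy ++ opt E x y) Oy] ++ a3)).Perm (x :: y :: vs (a1 ++ a2 ++ a3)) := by
      rw [List.perm_iff_count]
      intro a
      simp only [vs_append, vs_cons_vert, vs_nil, List.count_append, List.count_cons,
        List.count_nil]
      omega
    rw [hp.nodup_iff, List.nodup_cons, List.nodup_cons, List.mem_cons, not_or]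
    exact ⟨⟨hxy, fun h => hx ((m1 x).1 h)⟩, fun h => hy ((m1 y).1 h), nd1⟩
  · intro v
    have hp : (vs (a1 ++ [Ev.vert x Ix (Ox ++ opt E x y)] ++ a2 ++
        [Ev.vert y (Iy ++ opt E x y) Oy] ++ a3)).Perm (x :: y :: vs (a1 ++ a2 ++ a3)) := by
      rw [List.perm_iff_count]
      intro a
      simp only [vs_append, vs_cons_vert, vs_nil, List.count_append, List.count_cons,
        List.count_nil]
      omega
    rw [hp.mem_iff, List.mem_cons, List.mem_cons, m1]
  · intro e
    have k1 := c1 e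
    simp only [cr_append, cr_cons, cr_nil, crE_vert] at k1 ⊢
    omega

theorem ind_thm (hM : S_COMBM) (hA : S_COMBA) (hB : S_COMBB) : S_RUN := by
  intro Δ n E σ hσ hE hnc hΔ
  have hE' : ∀ i j, E i j → σ i < σ j := fun i j h => (hE i j h).2.2
  have hirr : ∀ v, ¬ E v v := fun v h => absurd (hE' v v h) (lt_irrefl _)
  rcases Nat.lt_or_ge n 2 with hn | hn
  · -- at most one vertex
    have hno : ∀ i j, ¬ E i j := by
      intro i j h
      obtain ⟨h1, h2, h3⟩ := hE i j h
      have : i = j := by omega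
      subst this
      exact lt_irrefl _ h3
    rcases Nat.eq_zero_or_pos n with h0 | h0
    · subst h0
      exact ⟨[], Run.nil _, by simp, by simp, by simp, by simp⟩
    · have h1 : n = 1 := by omega
      subst h1
      refine ⟨[Ev.vert 0 [] []], ?_, ?_, by simp, ?_, ?_⟩
      · exact (Run.vert1 [] [] 0 [] []).cast (by simp) (by simp)
      · intro ev hev
        rw [List.mem_singleton] at hev
        subst hev
        exact ⟨⟨List.nodup_nil, fun e => by simp [hno]⟩, ⟨List.nodup_nil, fun e => by simp [hno]⟩⟩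
      · intro v; simp
      · intro e; simp
  · obtain ⟨T, hg, -, hz, hi, hf, -⟩ := key hM hA hB hσ hE' hΔ hnc n 0 (n - 1) false (by omega)
      (by omega) (by
        intro p hp1 hp2 q hq
        refine ⟨Nat.zero_le _, ?_⟩
        rcases hq with hq | hq
        · have := hE _ _ hq; omega
        · have := hE _ _ hq; omega)
    obtain ⟨f0, f1⟩ := hf rfl
    have hd0 := dg_le hΔ (hirr 0) 0 (n - 1)
    have hd1 := dg_le hΔ (hirr (n - 1)) 0 (n - 1)
    have hT : ∀ v, T v ≤ 2 * Δ + 5 := by
      intro v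
      rcases Nat.eq_zero_or_pos v with h | h
      · subst h; omega
      · rcases lt_trichotomy v (n - 1) with h' | h' | h'
        · exact hi v h h'
        · subst h'; omega
        · rw [hz v (Or.inr h')]; omega
    have hfin : ∀ (x y : ℕ), ((x = 0 ∧ y = n - 1) ∨ (x = n - 1 ∧ y = 0)) → σ x < σ y →
        Good E Δ x y (Ioo 0 (n - 1)) T →
        ∃ es, Run [] es [] ∧ (∀ ev ∈ es, OKE E ev) ∧ (vs es).Nodup ∧ (∀ v, v ∈ vs es ↔ v < n) ∧
          ∀ e, cr e es ≤ 4 * Δ ^ 2 + 10 * Δ := by
      intro x y hxy hlt hgood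
      obtain ⟨es, r, ok, nd, mem, hcr⟩ := whole (x := x) (y := y) (H := Ioo 0 (n - 1)) (T := T)
        (by omega) (by simp only [mem_Ioo]; omega) (by simp only [mem_Ioo]; omega) hirr
        (fun h => by have := hE' _ _ h; omega)
        (by
          intro i j h
          obtain ⟨h1, h2, -⟩ := hE i j h
          simp only [mem_Ioo]
          omega) hgood
      refine ⟨es, r, ok, nd, ?_, ?_⟩
      · intro v
        rw [mem]
        simp only [mem_Ioo]
        omega
      · intro e
        calc cr e es ≤ Δ * (T e.1 + T e.2) := hcr e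
          _ ≤ Δ * ((2 * Δ + 5) + (2 * Δ + 5)) := by
            apply Nat.mul_le_mul_left
            exact Nat.add_le_add (hT _) (hT _)
          _ = 4 * Δ ^ 2 + 10 * Δ := by ring
    unfold GoodU at hg
    split_ifs at hg with hlt
    · exact hfin 0 (n - 1) (Or.inl ⟨rfl, rfl⟩) hlt hg
    · refine hfin (n - 1) 0 (Or.inr ⟨rfl, rfl⟩) ?_ hg
      have : σ 0 ≠ σ (n - 1) := fun h => by have := hσ h; omega
      omega

end Pool.UL
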