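import Pool.Agent.Helper8.UL.Defs

/-! Statements of the parts of the UL project (MP_de303a_co, Q1). -/

open Set

namespace Pool.UL

/-- indicator of `{x, y, w}` -/
def ind3 (x y w v : ℕ) : ℕ := if v = x ∨ v = y ∨ v = w then 1 else 0

/-- Sweep drawing of the part `H` of the graph hanging at the (virtual) edge `x → y`, entirely to
the left of a `y`-monotone curve through `x` and `y`: `el` are the events below `x`, `em` those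
between `x` and `y`, `eh` those above `y`; `Ix, Ox, Iy, Oy` are the edges joining `H` to `x` and `y`. -/
def Good (E : ℕ → ℕ → Prop) (Δ x y : ℕ) (H : Set ℕ) (T : ℕ → ℕ) : Prop :=
  ∃ (Wx Ix Ox Wy Iy Oy : List (ℕ × ℕ)) (el em eh : List Ev),
    Run [] el (Wx ++ Ix) ∧ Run (Wx ++ Ox) em (Wy ++ Iy) ∧ Run (Wy ++ Oy) eh [] ∧
    Enum Ix {e | e.1 ∈ H ∧ e.2 = x ∧ E e.1 e.2} ∧ Enum Ox {e | e.1 = x ∧ e.2 ∈ H ∧ E e.1 e.2} ∧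
    Enum Iy {e | e.1 ∈ H ∧ e.2 = y ∧ E e.1 e.2} ∧ Enum Oy {e | e.1 = y ∧ e.2 ∈ H ∧ E e.1 e.2} ∧
    (∀ ev ∈ el ++ em ++ eh, OKE E ev) ∧ (vs (el ++ em ++ eh)).Nodup ∧
    (∀ v, v ∈ vs (el ++ em ++ eh) ↔ v ∈ H) ∧
    ∀ e, cr e (el ++ em ++ eh) ≤ Δ * (T e.1 + T e.2)

/-- configuration of a triangle `x y w` with the parts `H₁` (attached to `x, w`) and `H₂` (attached
to `w, y`) -/
structure Cfg (E : ℕ → ℕ → Prop) (x y w : ℕ) (H₁ H₂ : Set ℕ) : Prop where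
  xy : x ≠ y
  xw : x ≠ w
  yw : y ≠ w
  x1 : x ∉ H₁
  x2 : x ∉ H₂
  y1 : y ∉ H₁
  y2 : y ∉ H₂
  w1 : w ∉ H₁
  w2 : w ∉ H₂
  disj : ∀ v ∈ H₁, v ∉ H₂
  irr : ¬ E w w
  n1 : ∀ p ∈ H₁, ∀ q, (E p q ∨ E q p) → q ∈ H₁ ∨ q = x ∨ q = w
  n2 : ∀ p ∈ H₂, ∀ q, (E p q ∨ E q p) → q ∈ H₂ ∨ q = w ∨ q = y
  nw : ∀ q, (E w q ∨ E q w) → q ∈ H₁ ∨ q ∈ H₂ ∨ q = x ∨ q = y

/-- COMBM: `x < w < y` -/
def S_COMBM : Prop :=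
  ∀ (E : ℕ → ℕ → Prop) (Δ x y w : ℕ) (H₁ H₂ : Set ℕ) (T₁ T₂ : ℕ → ℕ), DegLe E Δ →
    Cfg E x y w H₁ H₂ → ¬ E w x → ¬ E y w → Good E Δ x w H₁ T₁ → Good E Δ w y H₂ T₂ →
    Good E Δ x y (H₁ ∪ {w} ∪ H₂) (fun v => T₁ v + T₂ v + ind3 x y w v)

/-- COMBA: `x < y < w` -/
def S_COMBA : Prop :=
  ∀ (E : ℕ → ℕ → Prop) (Δ x y w : ℕ) (H₁ H₂ : Set ℕ) (T₁ T₂ : ℕ → ℕ), DegLe E Δ →
    Cfg E x y w H₁ H₂ → ¬ E w x → ¬ E w y → Good E Δ x w H₁ T₁ → Good E Δ y w H₂ T₂ →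
    Good E Δ x y (H₁ ∪ {w} ∪ H₂) (fun v => T₁ v + T₂ v + ind3 x y w v)

/-- COMBB: `w < x < y` -/
def S_COMBB : Prop :=
  ∀ (E : ℕ → ℕ → Prop) (Δ x y w : ℕ) (H₁ H₂ : Set ℕ) (T₁ T₂ : ℕ → ℕ), DegLe E Δ →
    Cfg E x y w H₁ H₂ → ¬ E x w → ¬ E y w → Good E Δ w x H₁ T₁ → Good E Δ w y H₂ T₂ →
    Good E Δ x y (H₁ ∪ {w} ∪ H₂) (fun v => T₁ v + T₂ v + ind3 x y w v)

/-- discrete form of a drawing: times `τ` of the vertices, coordinate `c i j r` of the edge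
`i → j` at the time `r`, coordinate `cv w` of the vertex `w` -/
def RowData (n : ℕ) (E : ℕ → ℕ → Prop) (c₀ : ℕ → ℕ → ℕ) : Prop :=
  ∃ (τ : ℕ → ℕ) (c : ℕ → ℕ → ℕ → ℝ) (cv : ℕ → ℝ),
    (∀ i < n, ∀ j < n, τ i = τ j → i = j) ∧
    (∀ i j, E i j → τ i < τ j ∧ c i j (τ i) = cv i ∧ c i j (τ j) = cv j ∧
      (∀ w < n, w ≠ i → w ≠ j → τ i ≤ τ w → τ w ≤ τ j → c i j (τ w) ≠ cv w) ∧
      (∀ k l, E k l → (k, l) ≠ (i, j) → ∀ r, τ i ≤ r → r ≤ τ j → τ k ≤ r → r ≤ τ l →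
        c i j r = c k l r → ∃ w, (w = i ∨ w = j) ∧ (w = k ∨ w = l) ∧ r = τ w) ∧
      {q : (ℕ × ℕ) × ℕ | E q.1.1 q.1.2 ∧ q.1 ≠ (i, j) ∧ τ i ≤ q.2 ∧ q.2 + 1 ≤ τ j ∧
        τ q.1.1 ≤ q.2 ∧ q.2 + 1 ≤ τ q.1.2 ∧
        (c i j q.2 - c q.1.1 q.1.2 q.2) * (c i j (q.2 + 1) - c q.1.1 q.1.2 (q.2 + 1)) < 0}.encard ≤
        c₀ i j)

/-- ROWS: from a sweep to the discrete form -/
def S_ROWS : Prop :=
  ∀ (n : ℕ) (E : ℕ → ℕ → Prop) (es : List Ev), (∀ i j, E i j → i < n ∧ j < n ∧ i ≠ j) →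
    (∀ i j, E i j → ¬ E j i) →
    Run [] es [] → (∀ ev ∈ es, OKE E ev) → (vs es).Nodup → (∀ v, v ∈ vs es ↔ v < n) →
    RowData n E (fun i j => cr (i, j) es)

/-- LIN: from the discrete form to the drawing (piecewise linear interpolation) -/
def S_LIN : Prop :=
  ∀ (n : ℕ) (E : ℕ → ℕ → Prop) (c₀ : ℕ → ℕ → ℕ), (∀ i j, E i j → i < n ∧ j < n ∧ i ≠ j) →
    (∀ i j, E i j → ¬ E j i) → RowData n E c₀ → Drawable n E c₀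

end Pool.UL
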