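import Pool.Agent.Helper8.UL.Base

/-!
# Upward drawings of bounded-degree 2-trees (MP_de303a_co, Q2): definitions and parts (swarm UL2)
-/

open Set

namespace Pool.UL

/-! ## The final statement -/

/-- adjacency in the underlying graph -/
def Adj {V : Type} (E : V → V → Prop) (u v : V) : Prop := E u v ∨ E v u

/-- The underlying graph of `E` is a 2-tree: the vertices can be listed (without repetition) as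
`v 0, …, v (n-1)`, `n ≥ 2`, such that `v 0, v 1` are adjacent and every `v i` with `i ≥ 2` has exactly
two neighbours among the earlier vertices, and these two are adjacent. -/
def TwoTree {V : Type} (E : V → V → Prop) : Prop :=
  ∃ (n : ℕ) (v : ℕ → V), 2 ≤ n ∧ (∀ i < n, ∀ j < n, v i = v j → i = j) ∧ (∀ x, ∃ i < n, v i = x) ∧
    Adj E (v 0) (v 1) ∧
    ∀ i < n, 2 ≤ i → ∃ j < i, ∃ k < i, j ≠ k ∧ Adj E (v j) (v k) ∧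
      ∀ l < i, (Adj E (v l) (v i) ↔ l = j ∨ l = k)

/-- The final statement for 2-trees. -/
def S_FINAL2 : Prop :=
  ∀ (Δ : ℕ) (V : Type) (E : V → V → Prop), Acyclic E → TwoTree E → MaxDeg E Δ →
    ∃ D : UpwardDrawing E, D.IsPlanar (400 * Δ ^ 3 + 300 * Δ ^ 2 + 20 * Δ)

/-- the labelled form of `TwoTree` -/
def TwoTreeN (n : ℕ) (E : ℕ → ℕ → Prop) : Prop :=
  2 ≤ n ∧ (E 0 1 ∨ E 1 0) ∧
    ∀ i < n, 2 ≤ i → ∃ j < i, ∃ k < i, j ≠ k ∧ (E j k ∨ E k j) ∧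
      ∀ l < i, ((E l i ∨ E i l) ↔ l = j ∨ l = k)

/-- ORD2: reduction of the final statement to labelled graphs -/
def S_ORD2 : Prop :=
  (∀ (Δ n : ℕ) (E : ℕ → ℕ → Prop) (σ : ℕ → ℕ), Function.Injective σ →
    (∀ i j, E i j → i < n ∧ j < n ∧ σ i < σ j) → TwoTreeN n E →
    DegLe E Δ → Drawable n E (fun _ _ => 400 * Δ ^ 3 + 300 * Δ ^ 2 + 20 * Δ)) → S_FINAL2

/-! ## Edge lists -/

/-- `L` lists the edges from `H` to `v` -/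
def Inn (E : ℕ → ℕ → Prop) (H : Set ℕ) (v : ℕ) (L : List (ℕ × ℕ)) : Prop :=
  Enum L {x | x.1 ∈ H ∧ x.2 = v ∧ E x.1 x.2}

/-- `L` lists the edges from `v` to `H` -/
def Out (E : ℕ → ℕ → Prop) (v : ℕ) (H : Set ℕ) (L : List (ℕ × ℕ)) : Prop :=
  Enum L {x | x.1 = v ∧ x.2 ∈ H ∧ E x.1 x.2}

/-- the event list passes exactly the vertices of `H`, each once and correctly -/
def Fine (E : ℕ → ℕ → Prop) (H : Set ℕ) (es : List Ev) : Prop :=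
  (∀ ev ∈ es, OKE E ev) ∧ (vs es).Nodup ∧ ∀ v, v ∈ vs es ↔ v ∈ H

/-- the part `H` hangs at `{p, q}` -/
def Att (E : ℕ → ℕ → Prop) (H : Set ℕ) (p q : ℕ) : Prop :=
  p ∉ H ∧ q ∉ H ∧ ∀ v ∈ H, ∀ u, (E v u ∨ E u v) → u ∈ H ∨ u = p ∨ u = q

/-! ## The two kinds of partial drawings (`p` below `q`) -/

/-- Kind `M` (`H` passes from the left of the bundles `θ`, `θ'` to their right between `p` and `q`):
below `p` the row is `U ++ a`, just above `p` it is `U ++ θ ++ c ++ θ'`, just below `q` it is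
`θ ++ d ++ θ' ++ V`, above `q` it is `e ++ V`. -/
def MGood (E : ℕ → ℕ → Prop) (Δ p q : ℕ) (H : Set ℕ) (X X' : ℕ) (κ : ℕ × ℕ → ℕ) : Prop :=
  ∃ (U a c d e V : List (ℕ × ℕ)) (el eh : List Ev),
    Run [] el (U ++ a) ∧ Run (e ++ V) eh [] ∧
    Inn E H p a ∧ Out E p H c ∧ Inn E H q d ∧ Out E q H e ∧
    ∀ θ θ' : List (ℕ × ℕ), θ.length + c.length ≤ 2 * Δ → θ'.length + d.length ≤ 2 * Δ →
      ∃ em, Run (U ++ θ ++ c ++ θ') em (θ ++ d ++ θ' ++ V) ∧ Fine E H (el ++ em ++ eh) ∧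
        ∀ x, cr x (el ++ em ++ eh) ≤ κ x + X * θ.count x + X' * θ'.count x

/-- Kind `B` (no vertex of `H` between `p` and `q`), to the left of `p` and `q`: below `p` the row is
`W ++ bq ++ bp`, above `q` it is `W ++ tp ++ tq`. -/
def BGood (E : ℕ → ℕ → Prop) (p q : ℕ) (H : Set ℕ) (κ : ℕ × ℕ → ℕ) : Prop :=
  ∃ (W bq bp tp tq : List (ℕ × ℕ)) (el eh : List Ev),
    Run [] el (W ++ bq ++ bp) ∧ Run (W ++ tp ++ tq) eh [] ∧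
    Inn E H p bp ∧ Inn E H q bq ∧ Out E p H tp ∧ Out E q H tq ∧
    Fine E H (el ++ eh) ∧ ∀ x, cr x (el ++ eh) ≤ κ x

/-- Kind `B`, to the right of `p` and `q` (mirror image) -/
def BGoodR (E : ℕ → ℕ → Prop) (p q : ℕ) (H : Set ℕ) (κ : ℕ × ℕ → ℕ) : Prop :=
  ∃ (W bq bp tp tq : List (ℕ × ℕ)) (el eh : List Ev),
    Run [] el (bp ++ bq ++ W) ∧ Run (tq ++ tp ++ W) eh [] ∧
    Inn E H p bp ∧ Inn E H q bq ∧ Out E p H tp ∧ Out E q H tq ∧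
    Fine E H (el ++ eh) ∧ ∀ x, cr x (el ++ eh) ≤ κ x

/-- the reversed graph -/
def revE (E : ℕ → ℕ → Prop) : ℕ → ℕ → Prop := fun a b => E b a

/-- DUAL: mirror image and time reversal -/
def S_DUAL : Prop :=
  (∀ (E : ℕ → ℕ → Prop) (p q : ℕ) (H : Set ℕ) (κ : ℕ × ℕ → ℕ),
    BGood E p q H κ → BGoodR E p q H κ) ∧
  (∀ (E : ℕ → ℕ → Prop) (p q : ℕ) (H : Set ℕ) (κ : ℕ × ℕ → ℕ),
    BGood E p q H κ → BGood (revE E) q p H (fun x => κ (x.2, x.1))) ∧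
  ∀ (E : ℕ → ℕ → Prop) (Δ p q : ℕ) (H : Set ℕ) (X X' : ℕ) (κ : ℕ × ℕ → ℕ),
    MGood E Δ p q H X X' κ → MGood (revE E) Δ q p H X' X (fun x => κ (x.2, x.1))

/-- N1: a new triangle `p, q, w` with `w` between `p` and `q`; `H₀` is the previous part of kind `M`
at `p, q`, `HA, HB` are the parts at `p, w` and `HC, HD` those at `w, q`. -/
def S_N1 : Prop :=
  ∀ (E : ℕ → ℕ → Prop) (Δ p q w : ℕ) (H₀ HA HB HC HD : Set ℕ) (X₀ X₀' XA XA' XC XC' : ℕ)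
    (κ₀ κA κB κC κD : ℕ × ℕ → ℕ), DegLe E Δ → p ≠ q → p ≠ w → w ≠ q →
    Att E H₀ p q → Att E HA p w → Att E HB p w → Att E HC w q → Att E HD w q →
    w ∉ H₀ → q ∉ HA → q ∉ HB → p ∉ HC → p ∉ HD →
    (∀ v ∈ H₀, v ∉ HA ∧ v ∉ HB ∧ v ∉ HC ∧ v ∉ HD) → (∀ v ∈ HA, v ∉ HB ∧ v ∉ HC ∧ v ∉ HD) →
    (∀ v ∈ HB, v ∉ HC ∧ v ∉ HD) → (∀ v ∈ HC, v ∉ HD) →
    ¬ E w w → ¬ E w p → ¬ E q w →
    (∀ u, (E w u ∨ E u w) → u ∈ HA ∨ u ∈ HB ∨ u ∈ HC ∨ u ∈ HD ∨ u = p ∨ u = q) →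
    MGood E Δ p q H₀ X₀ X₀' κ₀ → MGood E Δ p w HA XA XA' κA → BGood E p w HB κB →
    MGood E Δ w q HC XC XC' κC → BGoodR E w q HD κD →
    MGood E Δ p q {v | v ∈ H₀ ∨ v ∈ HA ∨ v ∈ HB ∨ v ∈ HC ∨ v ∈ HD ∨ v = w}
      (X₀ + XA + 4 * Δ) (X₀' + XC' + 4 * Δ)
      (fun x => κ₀ x + κA x + κB x + κC x + κD x + (ind3 p q w x.1 + ind3 p q w x.2) *
        (100 * Δ + 10 * (X₀ + X₀' + XA + XA' + XC + XC')))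

/-- N2: a new triangle `p, q, u` with `u` above `p` and `q` (`p` below `q`); `HA, HX` are the parts at
`p, u` and `HC, HZ` those at `q, u`. -/
def S_N2 : Prop :=
  ∀ (E : ℕ → ℕ → Prop) (Δ p q u : ℕ) (HA HX HC HZ : Set ℕ) (XA XA' XC XC' : ℕ)
    (κA κX κC κZ : ℕ × ℕ → ℕ), DegLe E Δ → p ≠ q → p ≠ u → q ≠ u →
    Att E HA p u → Att E HX p u → Att E HC q u → Att E HZ q u →
    q ∉ HA → q ∉ HX → p ∉ HC → p ∉ HZ →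
    (∀ v ∈ HA, v ∉ HX ∧ v ∉ HC ∧ v ∉ HZ) → (∀ v ∈ HX, v ∉ HC ∧ v ∉ HZ) → (∀ v ∈ HC, v ∉ HZ) →
    ¬ E u u → ¬ E u p → ¬ E u q →
    (∀ v, (E u v ∨ E v u) → v ∈ HA ∨ v ∈ HX ∨ v ∈ HC ∨ v ∈ HZ ∨ v = p ∨ v = q) →
    MGood E Δ p u HA XA XA' κA → BGood E p u HX κX →
    MGood E Δ q u HC XC XC' κC → BGood E q u HZ κZ →
    BGood E p q {v | v ∈ HA ∨ v ∈ HX ∨ v ∈ HC ∨ v ∈ HZ ∨ v = u}
      (fun x => κA x + κX x + κC x + κZ x + (ind3 p q u x.1 + ind3 p q u x.2) *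
        (100 * Δ + 10 * (XA + XA' + XC + XC')))

/-- N3: a new triangle `p, q, l` with `l` below `p` and `q` (`p` below `q`); `HA, HX` are the parts at
`l, p` and `HC, HZ` those at `l, q`. Follows from N2 for the reversed graph. -/
def S_N3 : Prop :=
  ∀ (E : ℕ → ℕ → Prop) (Δ p q l : ℕ) (HA HX HC HZ : Set ℕ) (XA XA' XC XC' : ℕ)
    (κA κX κC κZ : ℕ × ℕ → ℕ), DegLe E Δ → p ≠ q → p ≠ l → q ≠ l →
    Att E HA l p → Att E HX l p → Att E HC l q → Att E HZ l q →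
    q ∉ HA → q ∉ HX → p ∉ HC → p ∉ HZ →
    (∀ v ∈ HA, v ∉ HX ∧ v ∉ HC ∧ v ∉ HZ) → (∀ v ∈ HX, v ∉ HC ∧ v ∉ HZ) → (∀ v ∈ HC, v ∉ HZ) →
    ¬ E l l → ¬ E p l → ¬ E q l →
    (∀ v, (E l v ∨ E v l) → v ∈ HA ∨ v ∈ HX ∨ v ∈ HC ∨ v ∈ HZ ∨ v = p ∨ v = q) →
    MGood E Δ l p HA XA XA' κA → BGood E l p HX κX →
    MGood E Δ l q HC XC XC' κC → BGood E l q HZ κZ →
    BGood E p q {v | v ∈ HA ∨ v ∈ HX ∨ v ∈ HC ∨ v ∈ HZ ∨ v = l}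
      (fun x => κA x + κX x + κC x + κZ x + (ind3 p q l x.1 + ind3 p q l x.2) *
        (100 * Δ + 10 * (XA + XA' + XC + XC')))

/-- BM: two parts of kind `B` at `p, q` -/
def S_BM : Prop :=
  ∀ (E : ℕ → ℕ → Prop) (Δ p q w : ℕ) (H₁ H₂ : Set ℕ) (κ₁ κ₂ : ℕ × ℕ → ℕ), DegLe E Δ → p ≠ q →
    Att E H₁ p q → Att E H₂ p q → (∀ v ∈ H₁, v ∉ H₂) →
    BGood E p q H₁ κ₁ → BGood E p q H₂ κ₂ →
    BGood E p q {v | v ∈ H₁ ∨ v ∈ H₂}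
      (fun x => κ₁ x + κ₂ x + (ind3 p q w x.1 + ind3 p q w x.2) * (2 * Δ))

/-- ROOT: the sweep of the whole graph -/
def S_ROOT : Prop :=
  ∀ (E : ℕ → ℕ → Prop) (Δ p q : ℕ) (HM HB : Set ℕ) (X X' : ℕ) (κM κB : ℕ × ℕ → ℕ),
    DegLe E Δ → p ≠ q → Att E HM p q → Att E HB p q → (∀ v ∈ HM, v ∉ HB) →
    ¬ E p p → ¬ E q q → ¬ E q p →
    (∀ u, (E p u ∨ E u p) → u ∈ HM ∨ u ∈ HB ∨ u = q) →
    (∀ u, (E q u ∨ E u q) → u ∈ HM ∨ u ∈ HB ∨ u = p) →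
    MGood E Δ p q HM X X' κM → BGood E p q HB κB →
    ∃ es, Run [] es [] ∧ Fine E {v | v ∈ HM ∨ v ∈ HB ∨ v = p ∨ v = q} es ∧
      ∀ x, cr x es ≤ κM x + κB x + X + X' + 4 * Δ

/-! ## The tree structure -/

/-- `Hang a b H F T`: `H` is a set of vertices built on the edge `a b` by stacking triangles, `F` the
set of the edges created (both directions, without `a b`), `T v` the number of triangles at `v` -/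
inductive Hang : ℕ → ℕ → Set ℕ → Set (ℕ × ℕ) → (ℕ → ℕ) → Prop
  | nil (a b : ℕ) (hab : a ≠ b) (H : Set ℕ) (F : Set (ℕ × ℕ)) (T : ℕ → ℕ) (hH : ∀ v, v ∉ H)
      (hF : ∀ x, x ∉ F) (hT : ∀ v, T v = 0) : Hang a b H F T
  | cons (a b w : ℕ) (hab : a ≠ b) (haw : a ≠ w) (hwb : w ≠ b) (H₁ H₂ H₃ H : Set ℕ)
      (F₁ F₂ F₃ F : Set (ℕ × ℕ)) (T₁ T₂ T₃ T : ℕ → ℕ)
      (h₁ : Hang a w H₁ F₁ T₁) (h₂ : Hang w b H₂ F₂ T₂) (h₃ : Hang a b H₃ F₃ T₃)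
      (hb : b ∉ H₁) (ha : a ∉ H₂) (hw : w ∉ H₃)
      (h12 : ∀ v ∈ H₁, v ∉ H₂) (h13 : ∀ v ∈ H₁, v ∉ H₃) (h23 : ∀ v ∈ H₂, v ∉ H₃)
      (hH : ∀ v, v ∈ H ↔ v ∈ H₁ ∨ v ∈ H₂ ∨ v ∈ H₃ ∨ v = w)
      (hF : ∀ x, x ∈ F ↔ x ∈ F₁ ∨ x ∈ F₂ ∨ x ∈ F₃ ∨ x = (a, w) ∨ x = (w, a) ∨ x = (w, b) ∨
        x = (b, w))
      (hT : ∀ v, T v = T₁ v + T₂ v + T₃ v + ind3 a b w v) : Hang a b H F T

/-- HB: basic facts on the structure: the edges of `F` join vertices of `H ∪ {a, b}`, at least one of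
them in `H`, and are symmetric; there are at least `T v` neighbours of `v` -/
def S_HB : Prop :=
  ∀ (a b : ℕ) (H : Set ℕ) (F : Set (ℕ × ℕ)) (T : ℕ → ℕ), Hang a b H F T →
    a ∉ H ∧ b ∉ H ∧
    (∀ x ∈ F, (x.1 ∈ H ∨ x.1 = a ∨ x.1 = b) ∧ (x.2 ∈ H ∨ x.2 = a ∨ x.2 = b) ∧
      (x.1 ∈ H ∨ x.2 ∈ H) ∧ (x.2, x.1) ∈ F ∧ x.1 ≠ x.2) ∧
    (∀ v, v ∉ H → v ≠ a → v ≠ b → T v = 0) ∧
    ∀ v, ∃ L : List ℕ, L.Nodup ∧ (∀ u ∈ L, (v, u) ∈ F) ∧ T v ≤ L.length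

/-- INS: a new vertex `z` stacked on an edge `p q` -/
def S_INS : Prop :=
  ∀ (a b : ℕ) (H : Set ℕ) (F : Set (ℕ × ℕ)) (T : ℕ → ℕ), Hang a b H F T → ∀ (p q z : ℕ),
    ((p, q) ∈ F ∨ (p = a ∧ q = b) ∨ (p = b ∧ q = a)) → z ∉ H → z ≠ a → z ≠ b →
    ∃ T' : ℕ → ℕ, Hang a b {v | v ∈ H ∨ v = z}
      {x | x ∈ F ∨ x = (p, z) ∨ x = (z, p) ∨ x = (q, z) ∨ x = (z, q)} T'

/-- BUILD: a 2-tree is such a structure -/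
def S_BUILD : Prop :=
  ∀ (n : ℕ) (E : ℕ → ℕ → Prop), (∀ i j, E i j → i < n ∧ j < n ∧ i ≠ j) → TwoTreeN n E →
    ∃ (F : Set (ℕ × ℕ)) (T : ℕ → ℕ), Hang 0 1 {v | 2 ≤ v ∧ v < n} F T ∧
      ∀ i j, (E i j ∨ E j i) ↔ ((i, j) ∈ F ∨ (i = 0 ∧ j = 1) ∨ (i = 1 ∧ j = 0))

/-- the invariant of the induction for the part `H` at `{p, q}`, `σ p < σ q` -/
def Inv (E : ℕ → ℕ → Prop) (Δ p q : ℕ) (H : Set ℕ) (T : ℕ → ℕ) : Prop :=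
  ∃ (HM HB : Set ℕ) (X X' : ℕ) (κM κB : ℕ × ℕ → ℕ), (∀ v, v ∈ H ↔ v ∈ HM ∨ v ∈ HB) ∧
    (∀ v ∈ HM, v ∉ HB) ∧ Att E HM p q ∧ Att E HB p q ∧
    MGood E Δ p q HM X X' κM ∧ BGood E p q HB κB ∧
    X ≤ 4 * Δ * T p ∧ X' ≤ 4 * Δ * T q ∧
    ∀ x, κM x + κB x ≤ (102 * Δ + 200 * Δ ^ 2) * (T x.1 + T x.2)

/-- STEP: one more triangle `p, q, w` -/
def S_STEP : Prop :=
  ∀ (E : ℕ → ℕ → Prop) (Δ p q w : ℕ) (H₁ H₂ H₃ H : Set ℕ) (T₁ T₂ T₃ T : ℕ → ℕ) (σ : ℕ → ℕ),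
    (∀ i j, E i j → σ i < σ j) → DegLe E Δ → σ p < σ q → σ w ≠ σ p → σ w ≠ σ q →
    (∀ v, T v = T₁ v + T₂ v + T₃ v + ind3 p q w v) → (∀ v, T v ≤ Δ) →
    (∀ v, v ∈ H ↔ v ∈ H₁ ∨ v ∈ H₂ ∨ v ∈ H₃ ∨ v = w) →
    q ∉ H₁ → p ∉ H₂ → w ∉ H₃ →
    (∀ v ∈ H₁, v ∉ H₂) → (∀ v ∈ H₁, v ∉ H₃) → (∀ v ∈ H₂, v ∉ H₃) →
    (∀ u, (E w u ∨ E u w) → u ∈ H₁ ∨ u ∈ H₂ ∨ u = p ∨ u = q) →
    (σ p < σ w → Inv E Δ p w H₁ T₁) → (σ w < σ p → Inv E Δ w p H₁ T₁) →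
    (σ w < σ q → Inv E Δ w q H₂ T₂) → (σ q < σ w → Inv E Δ q w H₂ T₂) →
    Inv E Δ p q H₃ T₃ → Inv E Δ p q H T

/-- IND2: the induction over the structure, and the root -/
def S_IND2 : Prop :=
  ∀ (Δ n : ℕ) (E : ℕ → ℕ → Prop) (σ : ℕ → ℕ), Function.Injective σ →
    (∀ i j, E i j → i < n ∧ j < n ∧ σ i < σ j) → TwoTreeN n E → DegLe E Δ →
    ∃ es, Run [] es [] ∧ (∀ ev ∈ es, OKE E ev) ∧ (vs es).Nodup ∧ (∀ v, v ∈ vs es ↔ v < n) ∧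
      ∀ e, cr e es ≤ 400 * Δ ^ 3 + 300 * Δ ^ 2 + 20 * Δ

end Pool.UL
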